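import Pool.Agent.Lib.MP_e6c71b_co.Indep

/-!
Existence of the roles and the final construction from a reduced structure.
-/

namespace Pool.Agent.Lib.MP_e6c71b_co

open Finset Classical

/-- Roles with prescribed multiplicities. -/
lemma exists_role (T : Type) [Fintype T] (size : T → ℕ) {d : ℕ} (hd : 2 ≤ d) :
    ∃ (K : ℕ) (role : Fin (K * d) → Option T),
      (∀ p, (univ.filter (fun i => role i = some p)).card = size p) ∧
      (∀ i p, role i = some p → (i.val + 2) % d = 0) := by
  let E := Σ p : T, Fin (size p)
  let eE := Fintype.equivFin E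
  refine ⟨Fintype.card E, fun i => if (i.val + 2) % d = 0 then
    some (eE.symm ⟨i.val / d, Nat.div_lt_of_lt_mul (i.2.trans_eq (mul_comm _ _))⟩).1 else none, ?_, ?_⟩
  · intro p
    have hg : ∀ e : Fin (Fintype.card E), e.val * d + (d - 2) < Fintype.card E * d := by
      intro e
      have h1 : (e.val + 1) * d ≤ Fintype.card E * d := Nat.mul_le_mul_right _ e.2
      have h2 : (e.val + 1) * d = e.val * d + d := by ring
      omega
    let g : Fin (Fintype.card E) → Fin (Fintype.card E * d) :=
      fun e => ⟨e.val * d + (d - 2), hg e⟩
    have hginj : Function.Injective g := by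
      intro e e' h
      have h1 : e.val * d + (d - 2) = e'.val * d + (d - 2) := congrArg Fin.val h
      have h2 : e.val * d = e'.val * d := by omega
      exact Fin.ext (Nat.eq_of_mul_eq_mul_right (by omega) h2)
    have hfilt : (univ.filter (fun i : Fin (Fintype.card E * d) =>
        (if (i.val + 2) % d = 0 then
          some (eE.symm ⟨i.val / d, Nat.div_lt_of_lt_mul (i.2.trans_eq (mul_comm _ _))⟩).1
          else none) = some p)) =
        (univ.filter (fun e : Fin (Fintype.card E) => (eE.symm e).1 = p)).image g := by
      ext i
      simp only [mem_filter, mem_univ, true_and, mem_image]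
      constructor
      · intro h
        by_cases hmod : (i.val + 2) % d = 0
        · rw [if_pos hmod] at h
          refine ⟨_, Option.some_injective _ h, ?_⟩
          apply Fin.ext
          change i.val / d * d + (d - 2) = i.val
          obtain ⟨c, hc⟩ := Nat.dvd_of_mod_eq_zero hmod
          have hc1 : 1 ≤ c := by
            rcases Nat.eq_zero_or_pos c with h0 | h0
            · rw [h0] at hc; omega
            · exact h0
          obtain ⟨c', rfl⟩ : ∃ c', c = c' + 1 := ⟨c - 1, by omega⟩
          have hi : i.val = d * c' + (d - 2) := by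
            have : d * (c' + 1) = d * c' + d := by ring
            omega
          have hdiv : i.val / d = c' := by
            rw [hi, Nat.mul_add_div (by omega), Nat.div_eq_of_lt (by omega)]; rfl
          rw [hdiv, mul_comm]
          exact hi.symm
        · rw [if_neg hmod] at h
          exact absurd h (by simp)
      · rintro ⟨e, he, rfl⟩
        have hmod : ((g e).val + 2) % d = 0 := by
          change (e.val * d + (d - 2) + 2) % d = 0
          have : e.val * d + (d - 2) + 2 = (e.val + 1) * d := by
            have : (e.val + 1) * d = e.val * d + d := by ring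
            omega
          rw [this, Nat.mul_mod_left]
        rw [if_pos hmod]
        have hdiv : (g e).val / d = e.val := by
          change (e.val * d + (d - 2)) / d = e.val
          rw [mul_comm, Nat.mul_add_div (by omega), Nat.div_eq_of_lt (by omega)]; rfl
        have : (⟨(g e).val / d, Nat.div_lt_of_lt_mul ((g e).2.trans_eq (mul_comm _ _))⟩ :
            Fin (Fintype.card E)) = e := Fin.ext hdiv
        rw [this, he]
    rw [hfilt, card_image_of_injective _ hginj]
    have h2 : (univ.filter (fun e : Fin (Fintype.card E) => (eE.symm e).1 = p)).card =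
        (univ : Finset (Fin (size p))).card := by
      symm
      refine card_bij (fun x _ => eE ⟨p, x⟩) ?_ ?_ ?_
      · intro x _
        simp
      · intro x _ y _ h
        have h' := eE.injective h
        exact eq_of_heq (Sigma.mk.inj h').2
      · intro e he
        simp only [mem_filter, mem_univ, true_and] at he
        subst he
        exact ⟨(eE.symm e).2, mem_univ _, by simp⟩
    rw [h2, card_univ, Fintype.card_fin]
  · intro i p h
    by_contra hmod
    simp only [if_neg hmod] at h
    exact absurd h (by simp)

lemma exists_params {R : Type} [Fintype R] {k d a : ℕ} (S : Reduced R k d a) (hd : 2 ≤ d)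
    (hk : 2 ≤ k) :
    ∃ (m : ℕ) (role : Fin m → Option (R × Bool)) (y τ : R → ℕ), ∀ q u : ℕ,
      q - 1 = d * u → Fintype.card R < u → m + 1 < q → RoleOK R k d q m u role y τ := by
  let e := Fintype.equivFin R
  let y : R → ℕ := fun r => (e r).val
  let τ : R → ℕ := fun r => (e r).val / k + 1
  obtain ⟨K, role, h1, h2⟩ := exists_role (R × Bool)
    (fun p => if p.2 then d * y p.1 else τ p.1) hd
  refine ⟨K * d, role, y, τ, ?_⟩
  intro q u hu hRu hm
  have hcard := S.card_le
  refine ⟨hd, hk, hu, ?_, ?_, ?_, ?_, ?_, ?_, ?_, ?_, hm⟩
  · intro r r' h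
    exact e.injective (Fin.ext h)
  · intro r
    exact (e r).2.trans hRu
  · intro r; exact Nat.le_add_left 1 _
  · intro r
    have h3 : (e r).val < k * (d - 1) := lt_of_lt_of_le (e r).2 hcard
    have h4 : (e r).val / k < d - 1 := Nat.div_lt_of_lt_mul h3
    change (e r).val / k + 1 < d
    exact Nat.add_lt_of_lt_sub h4
  · intro c
    have : (univ.filter (fun r => τ r = c)).card ≤ (Ico (k * (c - 1)) (k * (c - 1) + k)).card := by
      refine card_le_card_of_injOn (fun r => (e r).val) ?_ ?_
      · intro r hr
        have hr' : (e r).val / k + 1 = c := (mem_filter.1 hr).2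
        have h5 : (e r).val / k = c - 1 := Nat.eq_sub_of_add_eq hr'
        have h6 := Nat.div_add_mod (e r).val k
        have h7 := Nat.mod_lt (e r).val (by omega : 0 < k)
        rw [h5] at h6
        simp only [coe_Ico, Set.mem_Ico]
        constructor
        · exact Nat.le.intro h6
        · calc (e r).val = k * (c - 1) + (e r).val % k := h6.symm
            _ < k * (c - 1) + k := Nat.add_lt_add_left h7 _
      · intro r _ r' _ h
        exact e.injective (Fin.ext h)
    rw [Nat.card_Ico] at this
    omega
  · intro r
    have h := h1 (r, false)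
    simp only [Bool.false_eq_true, if_false] at h
    convert h
  · intro r
    have h := h1 (r, true)
    simp only [if_true] at h
    convert h
  · intro i r h
    exact h2 i _ h

/-- The final construction. -/
theorem construct {R : Type} [Fintype R] {k d a : ℕ} (S : Reduced R k d a) (hd : 2 ≤ d)
    (hk : 2 ≤ k) :
    ∃ m Q : ℕ, ∀ q : ℕ, q.Prime → q ≡ 1 [MOD d] → Q < q → ∀ s : ℕ, q ^ 3 < s * s →
      ∃ (V : Type) (_ : Fintype V) (G : SimpleGraph V),
        Fintype.card V = Fintype.card R * q ^ 2 + 2 * m ∧
        G.CliqueFree 3 ∧ (∀ v, ∃ w, G.Adj v w) ∧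
        (∀ c : ℕ, (univ.filter (fun v => (univ.filter (fun w => G.Adj v w)).card = c)).card ≤ k) ∧
        (∀ I : Finset V, (∀ v ∈ I, ∀ w ∈ I, ¬ G.Adj v w) →
          I.card ≤ a * q ^ 2 + Fintype.card R * (2 * s + q) + 2 * m) := by
  obtain ⟨m, role, y, τ, hpar⟩ := exists_params S hd hk
  refine ⟨m, m + 3 + d * (Fintype.card R + 1), ?_⟩
  intro q hq hqd hQ s hs
  have : Fact q.Prime := ⟨hq⟩
  have hq1 : 1 ≤ q := hq.one_lt.le
  obtain ⟨u, hu⟩ := (Nat.modEq_iff_dvd' hq1).1 hqd.symm
  have hRu : Fintype.card R < u := by
    by_contra hcon
    push Not at hcon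
    have : d * u ≤ d * (Fintype.card R + 1) := Nat.mul_le_mul_left _ (by omega)
    omega
  have hOK := hpar q u hu hRu (by omega)
  let o : R → ℕ := fun r => (Fintype.equivFin R r).val
  have ho : Function.Injective o := by
    intro r r' h
    exact (Fintype.equivFin R).injective (Fin.ext h)
  have hq2 : q ≠ 2 := by omega
  refine ⟨Vtx R q m, inferInstance, big S q m role ho, ?_, big_cliqueFree S q m role ho hq2,
    ?_, ?_, ?_⟩
  · simp only [Fintype.card_sum, Fintype.card_prod, ZMod.card, Fintype.card_fin]
    ring
  · intro v
    have hpos : 0 < dg S q m role (o := o) v := by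
      rcases v with x | i | t
      · have := dg_inl_ge (o := o) S hOK x
        omega
      · rw [dg_inr_inl]; omega
      · rw [dg_inr_inr]; omega
    obtain ⟨w, hw⟩ := card_pos.1 hpos
    exact ⟨w, (mem_filter.1 hw).2⟩
  · intro c
    exact mult_le S hOK c
  · intro I hI
    exact indep_bound S hq2 hs I hI

end Pool.Agent.Lib.MP_e6c71b_co
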