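import Mathlib

/-!
Circular distance in `ZMod p`.
-/

namespace Pool.Agent.Lib.MP_e6c71b_co

open Finset Classical

variable {p : ℕ} [NeZero p]

/-- `u` and `v` are at circular distance at least `s`. -/
def far (s : ℕ) (u v : ZMod p) : Prop := s ≤ (u - v).val ∧ s ≤ (v - u).val

omit [NeZero p] in
lemma far_symm {s : ℕ} {u v : ZMod p} (h : far s u v) : far s v u := ⟨h.2, h.1⟩

lemma far_iff {s : ℕ} (hs : 1 ≤ s) (u v : ZMod p) :
    far s u v ↔ s ≤ (u - v).val ∧ (u - v).val + s ≤ p := by
  unfold far
  have h1 : v - u = -(u - v) := by ring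
  have hlt := ZMod.val_lt (u - v)
  rw [h1, ZMod.neg_val]
  constructor
  · rintro ⟨h2, h3⟩
    refine ⟨h2, ?_⟩
    have hne : u - v ≠ 0 := by
      intro h0; rw [h0, ZMod.val_zero] at h2; omega
    rw [if_neg hne] at h3
    omega
  · rintro ⟨h2, h3⟩
    refine ⟨h2, ?_⟩
    have hne : u - v ≠ 0 := by
      intro h0; rw [h0, ZMod.val_zero] at h2; omega
    rw [if_neg hne]
    omega

omit [NeZero p] in
lemma not_far_self {s : ℕ} (hs : 1 ≤ s) (u : ZMod p) : ¬ far s u u := by
  rintro ⟨h, _⟩
  rw [sub_self, ZMod.val_zero] at h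
  omega

/-- A set without far pairs has at most `s` elements. -/
lemma card_le_of_no_far {s : ℕ} (hs : 1 ≤ s) (hp : 2 * s ≤ p) (T : Finset (ZMod p))
    (hT : ∀ x ∈ T, ∀ y ∈ T, ¬ far s x y) : T.card ≤ s := by
  rcases T.eq_empty_or_nonempty with rfl | ⟨b, hb⟩
  · simp
  have hval : ∀ t ∈ T, (t - b).val < s ∨ p < (t - b).val + s := by
    intro t ht
    have h := hT t ht b hb
    rw [far_iff hs] at h
    by_contra hcon
    push Not at hcon
    exact h ⟨hcon.1, hcon.2⟩
  have hcard : T.card ≤ (range s).card := by
    refine card_le_card_of_injOn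
      (fun t => if (t - b).val < s then (t - b).val else (t - b).val + s - p) ?_ ?_
    · intro t ht
      simp only [coe_range, Set.mem_Iio]
      have hlt := ZMod.val_lt (t - b)
      rcases hval t ht with h | h
      · rw [if_pos h]; exact h
      · split_ifs <;> omega
    · intro t ht t' ht' hφ
      simp only at hφ
      have hlt := ZMod.val_lt (t - b)
      have hlt' := ZMod.val_lt (t' - b)
      have hval1 := hval t ht
      have hval2 := hval t' ht'
      -- reduce to equality of values
      suffices h : (t - b).val = (t' - b).val by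
        have := ZMod.val_injective p h
        exact sub_left_injective this
      by_cases c1 : (t - b).val < s
      · rw [if_pos c1] at hφ
        by_cases c2 : (t' - b).val < s
        · rw [if_pos c2] at hφ; exact hφ
        · exfalso
          rw [if_neg c2] at hφ
          have h3 : p < (t' - b).val + s := by omega
          have h4 : t' - t = (t' - b) - (t - b) := by ring
          have h5 : (t' - t).val = (t' - b).val - (t - b).val := by
            rw [h4, ZMod.val_sub (by omega)]
          apply hT t' ht' t ht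
          rw [far_iff hs, h5]
          omega
      · rw [if_neg c1] at hφ
        by_cases c2 : (t' - b).val < s
        · exfalso
          rw [if_pos c2] at hφ
          have h3 : p < (t - b).val + s := by omega
          have h4 : t - t' = (t - b) - (t' - b) := by ring
          have h5 : (t - t').val = (t - b).val - (t' - b).val := by
            rw [h4, ZMod.val_sub (by omega)]
          apply hT t ht t' ht'
          rw [far_iff hs, h5]
          omega
        · rw [if_neg c2] at hφ
          omega
  rwa [card_range] at hcard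

/-- number of elements at prescribed difference range -/
lemma card_sub_val (u : ZMod p) (P : ℕ → Prop) (iP : DecidablePred P) (Q : ZMod p → Prop)
    (iQ : DecidablePred Q) (hQ : ∀ b, Q b ↔ P (b - u).val) :
    (univ.filter Q).card = ((range p).filter P).card := by
  refine card_bij (fun b _ => (b - u).val) ?_ ?_ ?_
  · intro b hb
    exact mem_filter.2 ⟨mem_range.2 (ZMod.val_lt _), (hQ b).1 (mem_filter.1 hb).2⟩
  · intro b _ b' _ h
    exact sub_left_injective (ZMod.val_injective p h)
  · intro j hj
    have hj' := mem_filter.1 hj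
    have hj1 := mem_range.1 hj'.1
    refine ⟨(j : ZMod p) + u, ?_, ?_⟩
    · rw [mem_filter]
      refine ⟨mem_univ _, ?_⟩
      rw [hQ, add_sub_cancel_right, ZMod.val_cast_of_lt hj1]
      exact hj'.2
    · rw [add_sub_cancel_right, ZMod.val_cast_of_lt hj1]

lemma card_sub_val' (b : ZMod p) (P : ℕ → Prop) (iP : DecidablePred P) (Q : ZMod p → Prop)
    (iQ : DecidablePred Q) (hQ : ∀ u, Q u ↔ P (b - u).val) :
    (univ.filter Q).card = ((range p).filter P).card := by
  refine card_bij (fun u _ => (b - u).val) ?_ ?_ ?_
  · intro u hu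
    exact mem_filter.2 ⟨mem_range.2 (ZMod.val_lt _), (hQ u).1 (mem_filter.1 hu).2⟩
  · intro u _ u' _ h
    exact sub_right_injective (ZMod.val_injective p h)
  · intro j hj
    have hj' := mem_filter.1 hj
    have hj1 := mem_range.1 hj'.1
    refine ⟨b - (j : ZMod p), ?_, ?_⟩
    · rw [mem_filter]
      refine ⟨mem_univ _, ?_⟩
      rw [hQ, sub_sub_cancel, ZMod.val_cast_of_lt hj1]
      exact hj'.2
    · rw [sub_sub_cancel, ZMod.val_cast_of_lt hj1]

lemma card_near {s : ℕ} (hsp : s ≤ p) (u : ZMod p) (Q : ZMod p → Prop)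
    (iQ : DecidablePred Q) (hQ : ∀ b, Q b ↔ (b - u).val < s) :
    (univ.filter Q).card = s := by
  rw [card_sub_val u (fun j => j < s) inferInstance Q iQ hQ]
  have : (range p).filter (fun j => j < s) = range s := by
    ext j; simp only [mem_filter, mem_range]; omega
  rw [this, card_range]

lemma card_near' {s : ℕ} (hsp : s ≤ p) (b : ZMod p) (Q : ZMod p → Prop)
    (iQ : DecidablePred Q) (hQ : ∀ u, Q u ↔ (b - u).val < s) :
    (univ.filter Q).card = s := by
  rw [card_sub_val' b (fun j => j < s) inferInstance Q iQ hQ]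
  have : (range p).filter (fun j => j < s) = range s := by
    ext j; simp only [mem_filter, mem_range]; omega
  rw [this, card_range]

lemma card_not_near' {s : ℕ} (b : ZMod p) (Q : ZMod p → Prop)
    (iQ : DecidablePred Q) (hQ : ∀ u, Q u ↔ ¬ (b - u).val < s) :
    (univ.filter Q).card = p - s := by
  rw [card_sub_val' b (fun j => ¬ j < s) inferInstance Q iQ hQ]
  have : (range p).filter (fun j => ¬ j < s) = Ico s p := by
    ext j; simp only [mem_filter, mem_range, mem_Ico]; omega
  rw [this, Nat.card_Ico]

lemma card_far {s : ℕ} (hs : 1 ≤ s) (hp : 2 * s ≤ p) (u : ZMod p) (Q : ZMod p → Prop)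
    (iQ : DecidablePred Q) (hQ : ∀ v, Q v ↔ far s u v) :
    (univ.filter Q).card = p + 1 - 2 * s := by
  rw [card_sub_val' u (fun j => s ≤ j ∧ j + s ≤ p) inferInstance Q iQ
    (fun v => (hQ v).trans (far_iff hs u v))]
  have : (range p).filter (fun j => s ≤ j ∧ j + s ≤ p) = Ico s (p + 1 - s) := by
    ext j; simp only [mem_filter, mem_range, mem_Ico]; omega
  rw [this, Nat.card_Ico]
  omega

/-- two points of a common arc of length `s` are not far -/
lemma not_far_of_near {s : ℕ} (hs : 1 ≤ s) {u b b' : ZMod p} (h : (b - u).val < s)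
    (h' : (b' - u).val < s) : ¬ far s b b' := by
  rw [far_iff hs]
  rintro ⟨h1, h2⟩
  rcases Nat.le_total (b' - u).val (b - u).val with hle | hle
  · have h3 : b - b' = (b - u) - (b' - u) := by ring
    rw [h3, ZMod.val_sub hle] at h1
    omega
  · have h3 : b' - b = (b' - u) - (b - u) := by ring
    have h4 : (b' - b).val = (b' - u).val - (b - u).val := by rw [h3, ZMod.val_sub hle]
    have h5 : b - b' = -(b' - b) := by ring
    rw [h5, ZMod.neg_val] at h1 h2
    split_ifs at h1 h2 <;> omega

lemma not_far_of_near' {s : ℕ} (hs : 1 ≤ s) {u u' b : ZMod p} (h : (b - u).val < s)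
    (h' : (b - u').val < s) : ¬ far s u u' := by
  rw [far_iff hs]
  rintro ⟨h1, h2⟩
  rcases Nat.le_total (b - u).val (b - u').val with hle | hle
  · have h3 : u - u' = (b - u') - (b - u) := by ring
    rw [h3, ZMod.val_sub hle] at h1
    omega
  · have h3 : u' - u = (b - u) - (b - u') := by ring
    have h4 : (u' - u).val = (b - u).val - (b - u').val := by rw [h3, ZMod.val_sub hle]
    have h5 : u - u' = -(u' - u) := by ring
    rw [h5, ZMod.neg_val] at h1 h2
    split_ifs at h1 h2 <;> omega

/-- no three pairwise far points when `p < 3s` -/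
lemma far_no_tri {s : ℕ} (hs : 1 ≤ s) (hp : p < 3 * s) {u v w : ZMod p}
    (h1 : far s u v) (h2 : far s v w) (h3 : far s u w) : False := by
  rw [far_iff hs] at h1 h2 h3
  have h4 : u - w = (u - v) + (v - w) := by ring
  rw [h4] at h3
  rcases Nat.lt_or_ge ((u - v).val + (v - w).val) p with h | h
  · rw [ZMod.val_add_of_lt h] at h3
    omega
  · have := ZMod.val_add_val_of_le h
    omega

end Pool.Agent.Lib.MP_e6c71b_co
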