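import Pool.Agent.Lib.MP_e6c71b_co.Insts

/-!
Existence of reduced structures with independence ratio close to `1/k`, for every `k ≥ 3`.
-/

namespace Pool.Agent.Lib.MP_e6c71b_co

open Finset Classical

lemma exists_reduced3 (ε : ℝ) (hε : 0 < ε) :
    ∃ (R : Type) (_ : Fintype R) (d a : ℕ), 2 ≤ d ∧ 0 < Fintype.card R ∧
      Nonempty (Reduced R 3 d a) ∧ (a : ℝ) ≤ (1 / 3 + ε) * (Fintype.card R : ℝ) := by
  obtain ⟨j, hj⟩ := exists_nat_gt (1 / ε)
  have hj0 : (0 : ℝ) < j := lt_trans (by positivity) hj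
  have hj1 : 1 ≤ j := by exact_mod_cast hj0
  have hne : NeZero (3 * j - 1) := ⟨by omega⟩
  refine ⟨ZMod (3 * j - 1) × Fin 3, inferInstance, 3 * j, 3 * j, by omega, ?_,
    ⟨red3 (3 * j - 1) j hj1 (by omega)⟩, ?_⟩
  · rw [Fintype.card_prod, ZMod.card, Fintype.card_fin]; omega
  · rw [Fintype.card_prod, ZMod.card, Fintype.card_fin]
    rw [div_lt_iff₀ hε] at hj
    have h1 : ((3 * j - 1 : ℕ) : ℝ) = 3 * j - 1 := by
      rw [Nat.cast_sub (by omega)]; push_cast; ring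
    push_cast
    rw [h1]
    have : (1 : ℝ) ≤ j := by exact_mod_cast hj1
    nlinarith

lemma exists_reduced4 (ε : ℝ) (hε : 0 < ε) :
    ∃ (R : Type) (_ : Fintype R) (d a : ℕ), 2 ≤ d ∧ 0 < Fintype.card R ∧
      Nonempty (Reduced R 4 d a) ∧ (a : ℝ) ≤ (1 / 4 + ε) * (Fintype.card R : ℝ) := by
  obtain ⟨N, hN⟩ := exists_nat_gt (1 / ε)
  obtain ⟨r, hr, hopt⟩ := exists_r (1 / 2) (by norm_num) (by norm_num) (ε / 2) (by linarith) (N + 3)
  have hpow : 1 ≤ 2 ^ (r - 1) := Nat.one_le_two_pow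
  have hcardR : Fintype.card (TT r 2 (r - 1) (2 ^ (r - 1) - 1)) =
      2 ^ r * (r - 1) + r * 2 * (2 ^ (r - 1) - 1) := card_TT _ _ _ _
  have hlow : (2 : ℝ) ^ r * (2 * r - 2) ≤ Fintype.card (TT r 2 (r - 1) (2 ^ (r - 1) - 1)) := by
    rw [hcardR]
    obtain ⟨r', rfl⟩ : ∃ r', r = r' + 1 := ⟨r - 1, by omega⟩
    rw [Nat.add_sub_cancel]
    have h1 : ((2 ^ r' - 1 : ℕ) : ℝ) = 2 ^ r' - 1 := by
      rw [Nat.cast_sub Nat.one_le_two_pow]; push_cast; ring
    have h2 : (r' + 1 : ℝ) ≤ 2 ^ r' := by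
      have : r' + 1 ≤ 2 ^ r' := Nat.lt_two_pow_self
      exact_mod_cast this
    push_cast
    rw [h1, pow_succ]
    nlinarith
  refine ⟨TT r 2 (r - 1) (2 ^ (r - 1) - 1), inferInstance, r * 2 ^ (r - 1) - 1,
    ⌊(1 / 4 + ε) * (Fintype.card (TT r 2 (r - 1) (2 ^ (r - 1) - 1)) : ℝ)⌋₊, ?_, ?_,
    ⟨red4 r _ (by omega) ?_⟩, Nat.floor_le (by positivity)⟩
  · have : 3 * 1 ≤ r * 2 ^ (r - 1) := Nat.mul_le_mul (by omega) hpow
    omega
  · rw [hcardR]
    have : 0 < 2 ^ r * (r - 1) := Nat.mul_pos (by positivity) (by omega)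
    omega
  · intro j hj X hX1 hX2
    apply Nat.le_floor
    have hrR : (N : ℝ) + 3 ≤ r := by exact_mod_cast hr
    have hpowr : (2 : ℝ) ^ r = 2 * 2 ^ (r - 1) := by
      rw [← pow_succ']; congr 1; omega
    have hP : (0 : ℝ) < 2 ^ (r - 1) := by positivity
    -- apply the optimisation with x = X / 2^r
    have h1 : (X : ℝ) / 2 ^ r ≤ 1 / 2 := by
      rw [div_le_div_iff₀ (by positivity) (by norm_num)]
      have : X * 2 ≤ 2 ^ r * 1 := hX1
      have h : ((X * 2 : ℕ) : ℝ) ≤ ((2 ^ r * 1 : ℕ) : ℝ) := by exact_mod_cast this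
      push_cast at h
      linarith
    have h2 : (X : ℝ) / 2 ^ r ≤ (1 - 1 / 2) ^ j := by
      rw [div_le_iff₀ (by positivity)]
      have h : ((X : ℕ) : ℝ) ≤ (((2 - 1) ^ j * 2 ^ (r - j) : ℕ) : ℝ) := by exact_mod_cast hX2
      have h3 : (2 : ℝ) ^ r = 2 ^ j * 2 ^ (r - j) := by rw [← pow_add]; congr 1; omega
      have h4 : (1 - 1 / 2 : ℝ) ^ j * 2 ^ j = 1 := by rw [← mul_pow]; norm_num
      rw [h3, ← mul_assoc, h4, one_mul]
      push_cast at h
      norm_num at h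
      exact h
    have h3 := hopt j hj _ h1 h2
    have h4 : ((r : ℝ) * (X / 2 ^ r) + j * (1 / 2)) * 2 ^ r = r * X + j * 2 ^ (r - 1) := by
      rw [add_mul, mul_assoc (r : ℝ), div_mul_cancel₀ _ (by positivity), hpowr]
      ring
    have h5 := mul_le_mul_of_nonneg_right h3 (by positivity : (0 : ℝ) ≤ 2 ^ r)
    rw [h4] at h5
    have h6 : (((r - 1) * X + j * 1 * (2 ^ (r - 1) - 1) : ℕ) : ℝ) ≤ r * X + j * 2 ^ (r - 1) := by
      have : (r - 1) * X + j * 1 * (2 ^ (r - 1) - 1) ≤ r * X + j * 2 ^ (r - 1) := by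
        refine add_le_add (Nat.mul_le_mul_right _ (by omega)) ?_
        rw [mul_one]
        exact Nat.mul_le_mul_left _ (by omega)
      exact_mod_cast this
    refine h6.trans (h5.trans ?_)
    have h7 : (r : ℝ) * (1 / 2 + ε / 2) ≤ (1 / 4 + ε) * (2 * r - 2) := by
      rw [div_lt_iff₀ hε] at hN
      nlinarith
    calc (r : ℝ) * (1 / 2 + ε / 2) * 2 ^ r ≤ (1 / 4 + ε) * (2 * r - 2) * 2 ^ r :=
          mul_le_mul_of_nonneg_right h7 (by positivity)
      _ = (1 / 4 + ε) * (2 ^ r * (2 * r - 2)) := by ring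
      _ ≤ _ := mul_le_mul_of_nonneg_left hlow (by linarith)

lemma exists_reduced5 (k : ℕ) (hk : 5 ≤ k) (ε : ℝ) (hε : 0 < ε) :
    ∃ (R : Type) (_ : Fintype R) (d a : ℕ), 2 ≤ d ∧ 0 < Fintype.card R ∧
      Nonempty (Reduced R k d a) ∧ (a : ℝ) ≤ (1 / k + ε) * (Fintype.card R : ℝ) := by
  obtain ⟨u, hu⟩ := exists_nat_gt (1 / ε)
  have hu0 : (0 : ℝ) < u := lt_trans (by positivity) hu
  have hu1 : 1 ≤ u := by exact_mod_cast hu0
  have hku : 5 * u ≤ k * u := Nat.mul_le_mul_right _ hk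
  set p := k * u - 1 with hp
  have hp1 : p + 1 = k * u := by omega
  have hne : NeZero p := ⟨by omega⟩
  have hp0 : (0 : ℝ) < p := by
    have : 0 < p := by omega
    exact_mod_cast this
  have hk0 : (5 : ℝ) ≤ k := by exact_mod_cast hk
  have hpR : (p : ℝ) + 1 = k * u := by exact_mod_cast hp1
  have hu1R : (1 : ℝ) ≤ u := by exact_mod_cast hu1
  have hβ0 : 0 < (2 * u : ℝ) / p := by positivity
  have hβ1 : (2 * u : ℝ) / p ≤ 1 := by
    rw [div_le_one hp0]; nlinarith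
  have hβ : (2 * u : ℝ) / p ≤ 2 / k + ε := by
    rw [div_le_iff₀ hp0]
    have h1 : (p : ℝ) = k * u - 1 := by linarith
    rw [h1]
    have h2 : (2 / k + ε : ℝ) * (k * u - 1) = 2 * u - 2 / k + ε * (k * u - 1) := by
      field_simp
    rw [h2]
    have h3 : (2 : ℝ) / k ≤ 1 := by rw [div_le_one (by linarith)]; linarith
    have h4 : (1 : ℝ) < u * ε := by rwa [div_lt_iff₀ hε] at hu
    have h5 : (u : ℝ) ≤ k * u - 1 := by nlinarith
    have h6 : (u : ℝ) * ε ≤ ε * (k * u - 1) := by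
      rw [mul_comm]; exact mul_le_mul_of_nonneg_left h5 hε.le
    linarith
  obtain ⟨r, hr, hopt⟩ := exists_r ((2 * u : ℝ) / p) hβ0 hβ1 ε hε k
  have hppos : 0 < p := by omega
  have hPpos : 1 ≤ p ^ (r - 1) := Nat.one_le_pow _ _ hppos
  have hcardR : Fintype.card (TT r p r (p ^ (r - 1))) = p ^ r * r + r * p * p ^ (r - 1) :=
    card_TT _ _ _ _
  have hpow : p ^ r = p * p ^ (r - 1) := by rw [← pow_succ']; congr 1; omega
  refine ⟨TT r p r (p ^ (r - 1)), inferInstance, r * (2 * u) * p ^ (r - 1),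
    ⌊(1 / k + ε) * (Fintype.card (TT r p r (p ^ (r - 1))) : ℝ)⌋₊, ?_, ?_,
    ⟨redK k r p (2 * u) _ (by omega) (by omega) (by omega) ?_ ?_⟩, Nat.floor_le (by positivity)⟩
  · have h1 : 1 * (2 * 1) ≤ r * (2 * u) := Nat.mul_le_mul (by omega) (Nat.mul_le_mul_left _ hu1)
    have h2 : 1 * (2 * 1) * 1 ≤ r * (2 * u) * p ^ (r - 1) := Nat.mul_le_mul h1 hPpos
    simpa using h2
  · rw [hcardR]
    have : 0 < p ^ r * r := Nat.mul_pos (by positivity) (by omega)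
    omega
  · -- 2 r p^r ≤ k (d - 1)
    have h1 : k * (r * (2 * u) * p ^ (r - 1)) = 2 * (r * p ^ r) + 2 * r * p ^ (r - 1) := by
      rw [hpow]
      calc k * (r * (2 * u) * p ^ (r - 1)) = 2 * r * (k * u) * p ^ (r - 1) := by ring
        _ = 2 * r * (p + 1) * p ^ (r - 1) := by rw [← hp1]
        _ = _ := by ring
    rw [Nat.mul_sub, h1, mul_one]
    have h2 : k * 1 ≤ 2 * r * p ^ (r - 1) := Nat.mul_le_mul (by omega) hPpos
    omega
  · intro j hj X hX1 hX2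
    apply Nat.le_floor
    have hpP : (0 : ℝ) < (p : ℝ) ^ r := by positivity
    have h1 : (X : ℝ) / p ^ r ≤ (2 * u : ℝ) / p := by
      rw [div_le_div_iff₀ hpP hp0]
      have h : ((X * p : ℕ) : ℝ) ≤ ((p ^ r * (2 * u) : ℕ) : ℝ) := by exact_mod_cast hX1
      push_cast at h
      linarith
    have h2 : (X : ℝ) / p ^ r ≤ (1 - (2 * u : ℝ) / p) ^ j := by
      rw [div_le_iff₀ hpP]
      have h : ((X : ℕ) : ℝ) ≤ (((p - 2 * u) ^ j * p ^ (r - j) : ℕ) : ℝ) := by exact_mod_cast hX2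
      have h3 : (p : ℝ) ^ r = p ^ j * p ^ (r - j) := by rw [← pow_add]; congr 1; omega
      have h4 : (1 - (2 * u : ℝ) / p) ^ j * p ^ j = (p - 2 * u) ^ j := by
        rw [← mul_pow]; congr 1; field_simp
      rw [h3, ← mul_assoc, h4]
      push_cast [Nat.cast_sub (show 2 * u ≤ p by omega)] at h
      exact h
    have h3 := hopt j hj _ h1 h2
    have h4 : ((r : ℝ) * (X / p ^ r) + j * ((2 * u : ℝ) / p)) * p ^ r
        = r * X + j * (2 * u) * p ^ (r - 1) := by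
      have hpowR : (p : ℝ) ^ r = p * p ^ (r - 1) := by exact_mod_cast hpow
      have e1 : (r : ℝ) * (X / p ^ r) * p ^ r = r * X := by
        rw [mul_assoc, div_mul_cancel₀ _ hpP.ne']
      have e2 : (j : ℝ) * ((2 * u : ℝ) / p) * p ^ r = j * (2 * u) * p ^ (r - 1) := by
        rw [hpowR]; field_simp
      rw [add_mul, e1, e2]
    have h5 := mul_le_mul_of_nonneg_right h3 hpP.le
    rw [h4] at h5
    have h6 : ((r * X + j * (2 * u) * p ^ (r - 1) : ℕ) : ℝ)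
        = r * X + j * (2 * u) * p ^ (r - 1) := by push_cast; ring
    rw [h6]
    refine h5.trans ?_
    have hcR : ((Fintype.card (TT r p r (p ^ (r - 1))) : ℕ) : ℝ) = 2 * (r * p ^ r) := by
      have : Fintype.card (TT r p r (p ^ (r - 1))) = 2 * (r * p ^ r) := by
        rw [hcardR, hpow]; ring
      exact_mod_cast this
    rw [hcR]
    calc (r : ℝ) * ((2 * u : ℝ) / p + ε) * p ^ r ≤ r * ((2 / k + ε) + ε) * p ^ r := by gcongr
      _ = (1 / k + ε) * (2 * (r * p ^ r)) := by ring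

theorem exists_reduced (k : ℕ) (hk : 3 ≤ k) (ε : ℝ) (hε : 0 < ε) :
    ∃ (R : Type) (_ : Fintype R) (d a : ℕ), 2 ≤ d ∧ 0 < Fintype.card R ∧
      Nonempty (Reduced R k d a) ∧ (a : ℝ) ≤ (1 / k + ε) * (Fintype.card R : ℝ) := by
  rcases (by omega : k = 3 ∨ k = 4 ∨ 5 ≤ k) with rfl | rfl | h
  · exact_mod_cast exists_reduced3 ε hε
  · exact_mod_cast exists_reduced4 ε hε
  · exact exists_reduced5 k h ε hε

end Pool.Agent.Lib.MP_e6c71b_co
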