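import Pool.Agent.Lib.MP_e6c71b_co.Exists
import Pool.Agent.Lib.MP_e6c71b_co.Assemble

/-!
Graphs on `Fin n` with the required properties.
-/

namespace Pool.Agent.Lib.MP_e6c71b_co

open Finset Classical

/-- The combinatorial properties of a graph we need. -/
def Good {V : Type} [Fintype V] (G : SimpleGraph V) (k : ℕ) (M : ℝ) : Prop :=
  G.CliqueFree 3 ∧ (∀ v, ∃ w, G.Adj v w) ∧
    (∀ c : ℕ, (univ.filter (fun v => (univ.filter (fun w => G.Adj v w)).card = c)).card ≤ k) ∧
    (∀ I : Finset V, (∀ v ∈ I, ∀ w ∈ I, ¬ G.Adj v w) → (I.card : ℝ) ≤ M)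

lemma Good.transfer {V W : Type} [Fintype V] [Fintype W] (e : W ≃ V) {G : SimpleGraph V} {k : ℕ}
    {M : ℝ} (h : Good G k M) : Good (G.comap e) k M := by
  obtain ⟨h1, h2, h3, h4⟩ := h
  have hdeg : ∀ v : W, ∀ iD : DecidablePred (fun w => (G.comap e).Adj v w),
      (@Finset.filter _ (fun w => (G.comap e).Adj v w) iD univ).card =
      (univ.filter (fun w => G.Adj (e v) w)).card := by
    intro v iD
    refine card_bij (fun w _ => e w) ?_ ?_ ?_
    · intro w hw
      exact mem_filter.2 ⟨mem_univ _, (mem_filter.1 hw).2⟩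
    · intro w _ w' _ hww
      exact e.injective hww
    · intro w hw
      refine ⟨e.symm w, mem_filter.2 ⟨mem_univ _, ?_⟩, e.apply_symm_apply w⟩
      rw [SimpleGraph.comap_adj, e.apply_symm_apply]
      exact (mem_filter.1 hw).2
  refine ⟨?_, ?_, ?_, ?_⟩
  · exact h1.comap (SimpleGraph.Embedding.comap e.toEmbedding G).isContained
  · intro v
    obtain ⟨w, hw⟩ := h2 (e v)
    refine ⟨e.symm w, ?_⟩
    rw [SimpleGraph.comap_adj, e.apply_symm_apply]
    exact hw
  · intro c
    refine le_trans ?_ (h3 c)
    refine card_le_card_of_injOn e ?_ e.injective.injOn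
    intro v hv
    have := (mem_filter.1 hv).2
    exact mem_coe.2 (mem_filter.2 ⟨mem_univ _, (hdeg v _).symm.trans this⟩)
  · intro I hI
    have := h4 (I.map e.toEmbedding) ?_
    · rwa [card_map] at this
    · intro v hv w hw
      obtain ⟨v', hv', rfl⟩ := mem_map.1 hv
      obtain ⟨w', hw', rfl⟩ := mem_map.1 hw
      exact hI v' hv' w' hw'

lemma Good.toFin {V : Type} [Fintype V] {G : SimpleGraph V} {k : ℕ}
    {M : ℝ} (h : Good G k M) {n : ℕ} (hn : Fintype.card V = n) :
    ∃ G' : SimpleGraph (Fin n), Good G' k M :=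
  ⟨_, h.transfer (Fintype.equivFinOfCardEq hn).symm⟩

/-- The half graph. -/
def half (m : ℕ) : SimpleGraph (Fin m ⊕ Fin m) where
  Adj
    | .inl i, .inr j => m ≤ i.val + j.val + 1
    | .inr i, .inl j => m ≤ i.val + j.val + 1
    | .inl _, .inl _ => False
    | .inr _, .inr _ => False
  symm := ⟨by
    rintro (i | i) (j | j) h
    · exact h
    · change m ≤ j.val + i.val + 1
      have : m ≤ i.val + j.val + 1 := h
      omega
    · change m ≤ j.val + i.val + 1
      have : m ≤ i.val + j.val + 1 := h
      omega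
    · exact h⟩
  loopless := ⟨by rintro (i | i) h <;> exact h⟩

lemma card_half_aux (m : ℕ) (i : Fin m) (iD : DecidablePred fun j : Fin m => m ≤ i.val + j.val + 1) :
    (univ.filter (fun j : Fin m => m ≤ i.val + j.val + 1)).card = i.val + 1 := by
  have h : (univ.filter (fun j : Fin m => m ≤ i.val + j.val + 1)).card =
      (Ico (m - (i.val + 1)) m).card := by
    refine card_bij (fun j _ => j.val) ?_ ?_ ?_
    · intro j hj
      have := (mem_filter.1 hj).2
      rw [mem_Ico]
      have := j.2
      omega
    · intro j _ j' _ h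
      exact Fin.ext h
    · intro c hc
      rw [mem_Ico] at hc
      refine ⟨⟨c, hc.2⟩, mem_filter.2 ⟨mem_univ _, ?_⟩, rfl⟩
      change m ≤ i.val + c + 1
      omega
  rw [h, Nat.card_Ico]
  have := i.2
  omega

lemma card_filter_inl {α β : Type} [Fintype α] [Fintype β] (P : α ⊕ β → Prop)
    (i1 : DecidablePred P) (h : ∀ b, ¬ P (.inr b)) :
    (univ.filter P).card = (univ.filter (fun a => P (.inl a))).card := by
  rw [card_filter_sum]
  have : (univ.filter (fun b => P (.inr b))).card = 0 := by
    rw [card_eq_zero]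
    refine eq_empty_of_forall_notMem (fun b hb => h b (mem_filter.1 hb).2)
  rw [this, add_zero]

lemma card_filter_inr {α β : Type} [Fintype α] [Fintype β] (P : α ⊕ β → Prop)
    (i1 : DecidablePred P) (h : ∀ b, ¬ P (.inl b)) :
    (univ.filter P).card = (univ.filter (fun a => P (.inr a))).card := by
  rw [card_filter_sum]
  have : (univ.filter (fun b => P (.inl b))).card = 0 := by
    rw [card_eq_zero]
    refine eq_empty_of_forall_notMem (fun b hb => h b (mem_filter.1 hb).2)
  rw [this, zero_add]

lemma half_good (m : ℕ) : Good (half m) 2 (m : ℝ) := by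
  have hdl : ∀ i : Fin m, (univ.filter (fun w => (half m).Adj (.inl i) w)).card = i.val + 1 := by
    intro i
    rw [card_filter_inr _ _ (fun b h => h)]
    exact card_half_aux m i _
  have hdr : ∀ i : Fin m, (univ.filter (fun w => (half m).Adj (.inr i) w)).card = i.val + 1 := by
    intro i
    rw [card_filter_inl _ _ (fun b h => h)]
    exact card_half_aux m i _
  refine ⟨?_, ?_, ?_, ?_⟩
  · intro t ht
    obtain ⟨a, b, c, hab, hac, hbc, rfl⟩ := SimpleGraph.is3Clique_iff.1 ht
    rcases a with a | a <;> rcases b with b | b <;> rcases c with c | c <;>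
      first | exact hab | exact hac | exact hbc
  · rintro (i | i)
    · have : 0 < (univ.filter (fun w => (half m).Adj (.inl i) w)).card := by rw [hdl]; omega
      obtain ⟨w, hw⟩ := card_pos.1 this
      exact ⟨w, (mem_filter.1 hw).2⟩
    · have : 0 < (univ.filter (fun w => (half m).Adj (.inr i) w)).card := by rw [hdr]; omega
      obtain ⟨w, hw⟩ := card_pos.1 this
      exact ⟨w, (mem_filter.1 hw).2⟩
  · intro c
    rw [card_filter_sum]
    have h1 : (univ.filter (fun i : Fin m =>
        (univ.filter (fun w => (half m).Adj (.inl i) w)).card = c)).card ≤ 1 := by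
      rw [card_le_one]
      intro i hi j hj
      have h1 := (mem_filter.1 hi).2
      have h2 := (mem_filter.1 hj).2
      rw [hdl] at h1 h2
      exact Fin.ext (by omega)
    have h2 : (univ.filter (fun i : Fin m =>
        (univ.filter (fun w => (half m).Adj (.inr i) w)).card = c)).card ≤ 1 := by
      rw [card_le_one]
      intro i hi j hj
      have h1 := (mem_filter.1 hi).2
      have h2 := (mem_filter.1 hj).2
      rw [hdr] at h1 h2
      exact Fin.ext (by omega)
    exact add_le_add h1 h2
  · intro I hI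
    have : I.card ≤ (range m).card := by
      refine card_le_card_of_injOn
        (fun v => Sum.elim (fun i : Fin m => i.val) (fun j : Fin m => m - 1 - j.val) v) ?_ ?_
      · rintro (i | i) _
        · exact mem_coe.2 (mem_range.2 i.2)
        · have := i.2
          refine mem_coe.2 (mem_range.2 ?_)
          change m - 1 - i.val < m
          omega
      · rintro (i | i) hi (j | j) hj hij
        · exact congrArg _ (Fin.ext hij)
        · exfalso
          have h1 : i.val = m - 1 - j.val := hij
          refine hI _ hi _ hj ?_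
          change m ≤ i.val + j.val + 1
          have := j.2
          omega
        · exfalso
          have h1 : m - 1 - i.val = j.val := hij
          refine hI _ hi _ hj ?_
          change m ≤ i.val + j.val + 1
          have := i.2
          omega
        · have h1 : m - 1 - i.val = m - 1 - j.val := hij
          have := i.2
          have := j.2
          exact congrArg _ (Fin.ext (by omega))
    rw [card_range] at this
    exact_mod_cast this

/-- Graphs with independence ratio at most `1/k + ε` of arbitrarily large order. -/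
theorem exists_graph (k : ℕ) (hk : 2 ≤ k) (ε : ℝ) (hε : 0 < ε) (N : ℕ) :
    ∃ n : ℕ, N ≤ n ∧ ∃ G : SimpleGraph (Fin n), Good G k ((1 / k + ε) * n) := by
  rcases Nat.eq_or_lt_of_le hk with rfl | hk3
  · refine ⟨2 * N, by omega, ?_⟩
    have h := half_good N
    have h' : Good (half N) 2 ((1 / (2 : ℕ) + ε) * ((2 * N : ℕ) : ℝ)) := by
      refine ⟨h.1, h.2.1, h.2.2.1, fun I hI => (h.2.2.2 I hI).trans ?_⟩
      have : (0 : ℝ) ≤ N := Nat.cast_nonneg _
      push_cast
      nlinarith
    exact h'.toFin (by rw [Fintype.card_sum, Fintype.card_fin]; ring)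
  · obtain ⟨R, hR, d, a, hd, hRpos, ⟨S⟩, ha⟩ := exists_reduced k hk3 (ε / 2) (by linarith)
    obtain ⟨m, Q, hcons⟩ := construct S hd hk
    obtain ⟨x0, hx0⟩ := exists_nat_gt ((5 + 2 * (m : ℝ)) * 2 / ε)
    obtain ⟨q, hq, hqgt, hqmod⟩ := Nat.exists_prime_gt_modEq_one (k := d)
      (max (max Q N) ((x0 + 1) * (x0 + 1))) (by omega)
    have hQq : Q < q := lt_of_le_of_lt (le_trans (le_max_left _ _) (le_max_left _ _)) hqgt
    have hNq : N < q := lt_of_le_of_lt (le_trans (le_max_right _ _) (le_max_left _ _)) hqgt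
    have hxq : (x0 + 1) * (x0 + 1) < q := lt_of_le_of_lt (le_max_right _ _) hqgt
    set x := Nat.sqrt q with hx
    have hx1 : x * x ≤ q := Nat.sqrt_le q
    have hx2 : q < (x + 1) * (x + 1) := Nat.lt_succ_sqrt q
    have hx0x : x0 + 1 ≤ x := Nat.le_sqrt.2 hxq.le
    have hqpos : 0 < q := hq.pos
    have hs : q ^ 3 < (q * (x + 1)) * (q * (x + 1)) := by
      calc q ^ 3 = (q * q) * q := by ring
        _ < (q * q) * ((x + 1) * (x + 1)) := Nat.mul_lt_mul_of_pos_left hx2 (by positivity)
        _ = _ := by ring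
    obtain ⟨V, hV, G, hcard, h1, h2, h3, h4⟩ := hcons q hq hqmod hQq _ hs
    refine ⟨Fintype.card R * q ^ 2 + 2 * m, ?_, ?_⟩
    · have h5 : 1 * q ≤ Fintype.card R * q ^ 2 := by
        refine Nat.mul_le_mul hRpos ?_
        calc q = q ^ 1 := (pow_one q).symm
          _ ≤ q ^ 2 := Nat.pow_le_pow_right hqpos (by norm_num)
      omega
    · have hgood : Good G k ((1 / k + ε) * ((Fintype.card R * q ^ 2 + 2 * m : ℕ) : ℝ)) := by
        refine ⟨h1, h2, h3, fun I hI => ?_⟩
        have h5 : (I.card : ℝ) ≤ ((a * q ^ 2 + Fintype.card R * (2 * (q * (x + 1)) + q) + 2 * m : ℕ)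
            : ℝ) := by exact_mod_cast h4 I hI
        refine h5.trans ?_
        push_cast
        have hRr : (1 : ℝ) ≤ Fintype.card R := by exact_mod_cast hRpos
        have hqr : (1 : ℝ) ≤ q := by exact_mod_cast hqpos
        have hx1r : (x : ℝ) * x ≤ q := by exact_mod_cast hx1
        have hxr : (x0 : ℝ) + 1 ≤ x := by exact_mod_cast hx0x
        have hm0 : (0 : ℝ) ≤ m := Nat.cast_nonneg _
        have hx00 : (0 : ℝ) ≤ x0 := Nat.cast_nonneg _
        have hx1' : (1 : ℝ) ≤ x := by linarith
        rw [div_lt_iff₀ hε] at hx0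
        have h6 : (2 * (x : ℝ) + 3 + 2 * m) ≤ (ε / 2) * (x * x) := by
          have : (5 + 2 * (m : ℝ)) ≤ (ε / 2) * x := by nlinarith
          have h7 : (5 + 2 * (m : ℝ)) * x ≤ (ε / 2) * x * x :=
            mul_le_mul_of_nonneg_right this (by linarith)
          nlinarith
        have h7 : (2 * (x : ℝ) + 3 + 2 * m) ≤ (ε / 2) * q :=
          h6.trans (mul_le_mul_of_nonneg_left hx1r (by linarith))
        have h8 : (q : ℝ) * (2 * (x : ℝ) + 3 + 2 * m) ≤ (ε / 2) * q ^ 2 := by
          calc (q : ℝ) * (2 * (x : ℝ) + 3 + 2 * m) ≤ q * ((ε / 2) * q) :=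
                mul_le_mul_of_nonneg_left h7 (by linarith)
            _ = _ := by ring
        have h9 : (2 : ℝ) * m ≤ Fintype.card R * (q * (2 * m)) := by
          have e1 : (2 : ℝ) * m ≤ q * (2 * m) := by nlinarith
          have e2 : (q : ℝ) * (2 * m) ≤ Fintype.card R * (q * (2 * m)) := by
            have : (0 : ℝ) ≤ q * (2 * m) := by positivity
            nlinarith
          linarith
        have h10 : (Fintype.card R : ℝ) * (2 * (q * (x + 1)) + q) + 2 * m ≤
            (ε / 2) * (Fintype.card R * q ^ 2) := by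
          calc (Fintype.card R : ℝ) * (2 * (q * (x + 1)) + q) + 2 * m
              ≤ Fintype.card R * (2 * (q * (x + 1)) + q) + Fintype.card R * (q * (2 * m)) := by
                linarith
            _ = Fintype.card R * (q * (2 * (x : ℝ) + 3 + 2 * m)) := by ring
            _ ≤ Fintype.card R * ((ε / 2) * q ^ 2) :=
                mul_le_mul_of_nonneg_left h8 (by linarith)
            _ = _ := by ring
        have h11 : (a : ℝ) * q ^ 2 ≤ (1 / k + ε / 2) * (Fintype.card R * q ^ 2) := by
          calc (a : ℝ) * q ^ 2 ≤ ((1 / k + ε / 2) * (Fintype.card R : ℝ)) * q ^ 2 :=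
                mul_le_mul_of_nonneg_right ha (by positivity)
            _ = _ := by ring
        have h12 : (0 : ℝ) ≤ (1 / k + ε) * (2 * m) := by positivity
        have h13 : ((1 : ℝ) / k + ε) * (Fintype.card R * q ^ 2 + 2 * m) =
          (1 / k + ε / 2) * (Fintype.card R * q ^ 2) + (ε / 2) * (Fintype.card R * q ^ 2) +
            (1 / k + ε) * (2 * m) := by ring
        rw [h13]
        linarith
      exact hgood.toFin hcard

end Pool.Agent.Lib.MP_e6c71b_co
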