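import Pool.Agent.Lib.MP_e6c71b_co.Inc

/-!
The main graph construction.
-/

namespace Pool.Agent.Lib.MP_e6c71b_co

open Finset Classical

/-- A reduced structure: dense relation `D`, sparse relation `F`. -/
structure Reduced (R : Type) [Fintype R] (k d a : ℕ) where
  D : R → R → Prop
  F : R → R → Prop
  Dsymm : ∀ x y, D x y → D y x
  Fsymm : ∀ x y, F x y → F y x
  Dirr : ∀ x, ¬ D x x
  Firr : ∀ x, ¬ F x x
  disj : ∀ x y, D x y → ¬ F x y
  reg : ∀ x, (univ.filter (fun y => D x y)).card = d
  tri : ∀ x y z, D x y → (D y z ∨ F y z) → ¬ (D x z ∨ F x z)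
  card_le : Fintype.card R ≤ k * (d - 1)
  indep : ∀ S : Finset R, (∀ x ∈ S, ∀ y ∈ S, ¬ D x y ∧ ¬ F x y) → S.card ≤ a

section

variable {R : Type} [Fintype R] {k d a : ℕ} (S : Reduced R k d a) (o : R → ℕ)
variable (q : ℕ) [Fact q.Prime] (m : ℕ) (role : Fin m → Option (R × Bool))

/-- Vertices of the big graph. -/
abbrev Vtx (R : Type) (q m : ℕ) : Type := (R × ZMod q × ZMod q) ⊕ (Fin m ⊕ Fin m)

/-- Oriented incidence. -/
def incO (x y : R × ZMod q × ZMod q) : Prop :=
  if o x.1 < o y.1 then inc x.2 y.2 else inc y.2 x.2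

/-- Dense adjacency pattern. -/
def adjD (x y : R × ZMod q × ZMod q) : Prop :=
  q ≤ x.2.1.val + y.2.1.val ∨
  (x.2.1.val + y.2.1.val + 1 = q ∧ q ≤ x.2.2.val + y.2.2.val + 1) ∨
  (x.2.1.val + y.2.1.val + 2 ≤ q ∧ incO o q x y)

/-- Sparse adjacency pattern. -/
def adjF (x y : R × ZMod q × ZMod q) : Prop :=
  x.2.1 ≠ y.2.1 ∧ incO o q x y

/-- Adjacency between main vertices. -/
def adjP (x y : R × ZMod q × ZMod q) : Prop :=
  (S.D x.1 y.1 ∧ adjD o q x y) ∨ (S.F x.1 y.1 ∧ adjF o q x y)

/-- Special vertices. -/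
noncomputable def special (x : ZMod q × ZMod q) : Bool := decide (x.2 = 0 ∧ x.1 ≠ 0)

/-- Adjacency of the big graph. -/
def adj : Vtx R q m → Vtx R q m → Prop
  | .inl x, .inl y => adjP S o q x y
  | .inl x, .inr (.inl i) => role i = some (x.1, special q x.2)
  | .inl _, .inr (.inr _) => False
  | .inr (.inl i), .inl x => role i = some (x.1, special q x.2)
  | .inr (.inl _), .inr (.inl _) => False
  | .inr (.inl i), .inr (.inr t) => m ≤ i.val + t.val + 1
  | .inr (.inr _), .inl _ => False
  | .inr (.inr t), .inr (.inl i) => m ≤ i.val + t.val + 1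
  | .inr (.inr _), .inr (.inr _) => False

variable {o}

lemma incO_symm (ho : Function.Injective o) {x y : R × ZMod q × ZMod q} (hne : x.1 ≠ y.1) :
    incO o q x y ↔ incO o q y x := by
  unfold incO
  have : o x.1 ≠ o y.1 := fun h => hne (ho h)
  by_cases h : o x.1 < o y.1
  · rw [if_pos h, if_neg (by omega)]
  · rw [if_neg h, if_pos (by omega)]

lemma adjD_symm (ho : Function.Injective o) {x y : R × ZMod q × ZMod q} (hne : x.1 ≠ y.1) :
    adjD o q x y ↔ adjD o q y x := by
  unfold adjD
  rw [incO_symm q ho hne, add_comm x.2.1.val, add_comm x.2.2.val]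

lemma adjF_symm (ho : Function.Injective o) {x y : R × ZMod q × ZMod q} (hne : x.1 ≠ y.1) :
    adjF o q x y ↔ adjF o q y x := by
  unfold adjF
  rw [incO_symm q ho hne, ne_comm]

variable {S}

lemma adjP_symm (ho : Function.Injective o) {x y : R × ZMod q × ZMod q}
    (h : adjP S o q x y) : adjP S o q y x := by
  rcases h with ⟨h1, h2⟩ | ⟨h1, h2⟩
  · have hne : x.1 ≠ y.1 := fun h => S.Dirr x.1 (by rw [← h] at h1; exact h1)
    exact Or.inl ⟨S.Dsymm _ _ h1, (adjD_symm q ho hne).1 h2⟩
  · have hne : x.1 ≠ y.1 := fun h => S.Firr x.1 (by rw [← h] at h1; exact h1)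
    exact Or.inr ⟨S.Fsymm _ _ h1, (adjF_symm q ho hne).1 h2⟩

lemma adjP_ne {x y : R × ZMod q × ZMod q} (h : adjP S o q x y) : x.1 ≠ y.1 := by
  intro he
  rcases h with ⟨h1, _⟩ | ⟨h1, _⟩
  · rw [← he] at h1; exact S.Dirr _ h1
  · rw [← he] at h1; exact S.Firr _ h1

variable (S)

/-- The big graph. -/
def big (ho : Function.Injective o) : SimpleGraph (Vtx R q m) where
  Adj := adj S o q m role
  symm := ⟨by
    rintro (x | i | t) (y | i' | t') h
    · exact adjP_symm q ho h
    all_goals exact h⟩
  loopless := ⟨by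
    rintro (x | i | t) h
    · exact adjP_ne q h rfl
    all_goals exact h⟩

/-! ### Triangle-freeness -/

lemma adjF_no_tri (hq : q ≠ 2) {x y z : R × ZMod q × ZMod q}
    (hxy : o x.1 < o y.1) (hyz : o y.1 < o z.1) (h1 : adjF o q x y) (h2 : adjF o q y z)
    (h3 : adjF o q x z) : False := by
  obtain ⟨n1, i1⟩ := h1
  obtain ⟨n2, i2⟩ := h2
  obtain ⟨n3, i3⟩ := h3
  unfold incO at i1 i2 i3
  rw [if_pos hxy] at i1
  rw [if_pos hyz] at i2
  rw [if_pos (hxy.trans hyz)] at i3
  unfold inc at i1 i2 i3
  have h2ne : (2 : ZMod q) ≠ 0 := by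
    have hp := (Fact.out : q.Prime)
    have : ((2 : ℕ) : ZMod q) ≠ 0 := by
      rw [Ne, ZMod.natCast_eq_zero_iff]
      intro h
      exact hq ((Nat.prime_dvd_prime_iff_eq hp Nat.prime_two).1 h)
    exact_mod_cast this
  have key : 2 * (y.2.1 - x.2.1) * (z.2.1 - y.2.1) = 0 := by
    linear_combination i1 + i2 - i3
  rcases mul_eq_zero.1 key with h | h
  · rcases mul_eq_zero.1 h with h | h
    · exact h2ne h
    · exact n1 (sub_eq_zero.1 h).symm
  · exact n2 (sub_eq_zero.1 h).symm

lemma adjP_no_tri (ho : Function.Injective o) (hq : q ≠ 2) {x y z : R × ZMod q × ZMod q}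
    (h1 : adjP S o q x y) (h2 : adjP S o q y z) (h3 : adjP S o q x z) : False := by
  have hor : ∀ {x y : R × ZMod q × ZMod q}, adjP S o q x y → S.D x.1 y.1 ∨ S.F x.1 y.1 := by
    intro x y h
    rcases h with ⟨h, _⟩ | ⟨h, _⟩
    · exact Or.inl h
    · exact Or.inr h
  have n1 := adjP_ne q h1
  have n2 := adjP_ne q h2
  have n3 := adjP_ne q h3
  have r1 := hor h1
  have r2 := hor h2
  have r3 := hor h3
  have r1' := hor (adjP_symm q ho h1)
  have r2' := hor (adjP_symm q ho h2)
  have r3' := hor (adjP_symm q ho h3)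
  -- no dense pair
  have f1 : ¬ S.D x.1 y.1 := fun h => S.tri _ _ _ h r2 r3
  have f2 : ¬ S.D y.1 z.1 := fun h => S.tri _ _ _ h r3' r1'
  have f3 : ¬ S.D x.1 z.1 := fun h => S.tri _ _ _ h r2' r1
  have g1 : adjF o q x y := by
    rcases h1 with ⟨h, _⟩ | ⟨_, h⟩
    · exact absurd h f1
    · exact h
  have g2 : adjF o q y z := by
    rcases h2 with ⟨h, _⟩ | ⟨_, h⟩
    · exact absurd h f2
    · exact h
  have g3 : adjF o q x z := by
    rcases h3 with ⟨h, _⟩ | ⟨_, h⟩
    · exact absurd h f3
    · exact h
  have g1' := (adjF_symm q ho n1).1 g1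
  have g2' := (adjF_symm q ho n2).1 g2
  have g3' := (adjF_symm q ho n3).1 g3
  have m1 : o x.1 ≠ o y.1 := fun h => n1 (ho h)
  have m2 : o y.1 ≠ o z.1 := fun h => n2 (ho h)
  have m3 : o x.1 ≠ o z.1 := fun h => n3 (ho h)
  rcases lt_or_gt_of_ne m1 with a1 | a1 <;> rcases lt_or_gt_of_ne m2 with a2 | a2 <;>
    rcases lt_or_gt_of_ne m3 with a3 | a3
  · exact adjF_no_tri q hq a1 a2 g1 g2 g3
  · omega
  · exact adjF_no_tri q hq a3 a2 g3 g2' g1
  · exact adjF_no_tri q hq a3 a1 g3' g1 g2'
  · exact adjF_no_tri q hq a1 a3 g1' g3 g2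
  · exact adjF_no_tri q hq a2 a3 g2 g3' g1'
  · omega
  · exact adjF_no_tri q hq a2 a1 g2' g1' g3'

lemma big_cliqueFree (ho : Function.Injective o) (hq : q ≠ 2) :
    (big S q m role ho).CliqueFree 3 := by
  intro t ht
  rw [SimpleGraph.is3Clique_iff] at ht
  obtain ⟨x, y, z, hxy, hxz, hyz, _⟩ := ht
  change adj S o q m role x y at hxy
  change adj S o q m role x z at hxz
  change adj S o q m role y z at hyz
  have aux : ∀ (u v : R × ZMod q × ZMod q) (w : Bool × R), adjP S o q u v →
      ∀ p : Option (R × Bool), p = some (u.1, special q u.2) → p = some (v.1, special q v.2) →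
      False := by
    intro u v _ h p h1 h2
    apply adjP_ne q h
    rw [h1] at h2
    have h3 := Option.some_injective _ h2
    exact (Prod.mk.inj h3).1
  rcases x with x | i | t <;> rcases y with y | i' | t' <;> rcases z with z | i'' | t'' <;>
    simp only [adj] at hxy hxz hyz
  · exact adjP_no_tri S q ho hq hxy hyz hxz
  · exact aux x y (true, x.1) hxy _ hxz hyz
  · exact aux x z (true, x.1) hxz _ hxy hyz
  · exact aux y z (true, y.1) hyz _ hxy hxz

/-! ### Counting neighbours -/

/-- Degree of a vertex of the big graph. -/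
noncomputable def dg (v : Vtx R q m) : ℕ := (univ.filter (fun w => adj S o q m role v w)).card

variable {q}

lemma sum_val (g : ℕ → ℕ) : ∑ x : ZMod q, g x.val = ∑ j ∈ range q, g j := by
  refine sum_nbij (fun x => x.val) ?_ ?_ ?_ ?_
  · intro x _; exact mem_range.2 (ZMod.val_lt x)
  · intro x _ y _ h; exact ZMod.val_injective q h
  · intro j hj
    have hj' : j < q := by simpa using hj
    exact ⟨(j : ZMod q), by simp, ZMod.val_cast_of_lt hj'⟩
  · intro x _; rfl

lemma card_incO_b (x : R × ZMod q × ZMod q) (r : R) (a' : ZMod q) :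
    (univ.filter (fun b' : ZMod q => incO o q x (r, a', b'))).card = 1 := by
  unfold incO inc
  by_cases h : o x.1 < o r
  · simp only [h, if_true]
    rw [card_eq_one]
    refine ⟨x.2.2 + (a' - x.2.1) ^ 2, ?_⟩
    ext b
    simp only [mem_filter, mem_univ, true_and, mem_singleton]
    constructor
    · intro h; rw [← h]; ring
    · intro h; rw [h]; ring
  · simp only [h, if_false]
    rw [card_eq_one]
    refine ⟨x.2.2 - (x.2.1 - a') ^ 2, ?_⟩
    ext b
    simp only [mem_filter, mem_univ, true_and, mem_singleton]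
    constructor
    · intro h; rw [← h]; ring
    · intro h; rw [h]; ring

lemma card_b_anti (b : ZMod q) :
    (univ.filter (fun b' : ZMod q => q ≤ b.val + b'.val + 1)).card = b.val + 1 := by
  have hb := ZMod.val_lt b
  rw [card_filter, sum_val (fun j => if q ≤ b.val + j + 1 then 1 else 0), ← card_filter]
  have : (range q).filter (fun j => q ≤ b.val + j + 1) = Ico (q - (b.val + 1)) q := by
    ext j; simp only [mem_filter, mem_range, mem_Ico]; omega
  rw [this, Nat.card_Ico]
  omega

lemma card_adjD (x : R × ZMod q × ZMod q) (r : R) :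
    ∑ a' : ZMod q, ∑ b' : ZMod q, (if adjD o q x (r, a', b') then 1 else 0) =
      x.2.1.val * (q - 1) + x.2.2.val + q := by
  have ha := ZMod.val_lt x.2.1
  have hb := ZMod.val_lt x.2.2
  have h1 : ∀ a' : ZMod q, ∑ b' : ZMod q, (if adjD o q x (r, a', b') then 1 else 0) =
      (fun j => if q ≤ x.2.1.val + j then q else if x.2.1.val + j + 1 = q then x.2.2.val + 1 else 1)
        a'.val := by
    intro a'
    simp only
    by_cases c1 : q ≤ x.2.1.val + a'.val
    · rw [if_pos c1]
      have : ∀ b' : ZMod q, adjD o q x (r, a', b') := fun b' => Or.inl c1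
      simp [this, ZMod.card]
    · rw [if_neg c1]
      by_cases c2 : x.2.1.val + a'.val + 1 = q
      · rw [if_pos c2]
        have : ∀ b' : ZMod q, adjD o q x (r, a', b') ↔ q ≤ x.2.2.val + b'.val + 1 := by
          intro b'
          unfold adjD
          simp only
          constructor
          · rintro (h | h | h)
            · exact absurd h c1
            · exact h.2
            · omega
          · intro h
            exact Or.inr (Or.inl ⟨c2, h⟩)
        simp only [this]
        rw [← card_filter, card_b_anti]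
      · rw [if_neg c2]
        have : ∀ b' : ZMod q, adjD o q x (r, a', b') ↔ incO o q x (r, a', b') := by
          intro b'
          unfold adjD
          simp only
          constructor
          · rintro (h | h | h)
            · exact absurd h c1
            · exact absurd h.1 c2
            · exact h.2
          · intro h
            exact Or.inr (Or.inr ⟨by omega, h⟩)
        simp only [this]
        rw [← card_filter, card_incO_b]
  rw [sum_congr rfl (fun a' _ => h1 a'), sum_val (fun j => if q ≤ x.2.1.val + j then q else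
    if x.2.1.val + j + 1 = q then x.2.2.val + 1 else 1)]
  have hsplit : range q = range ((q - 1 - x.2.1.val) + (1 + x.2.1.val)) := by
    congr 1; omega
  rw [hsplit, sum_range_add, sum_range_add]
  have e1 : ∑ j ∈ range (q - 1 - x.2.1.val),
      (if q ≤ x.2.1.val + j then q else if x.2.1.val + j + 1 = q then x.2.2.val + 1 else 1)
      = q - 1 - x.2.1.val := by
    rw [sum_congr rfl (g := fun _ => 1)]
    · simp
    · intro j hj
      rw [mem_range] at hj
      rw [if_neg (by omega), if_neg (by omega)]
  have e3 : ∑ j ∈ range (x.2.1.val),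
      (if q ≤ x.2.1.val + (q - 1 - x.2.1.val + (1 + j)) then q else
        if x.2.1.val + (q - 1 - x.2.1.val + (1 + j)) + 1 = q then x.2.2.val + 1 else 1)
      = x.2.1.val * q := by
    rw [sum_congr rfl (g := fun _ => q)]
    · simp
    · intro j hj
      rw [if_pos (by omega)]
  rw [e1, e3, sum_range_one, if_neg (by omega), if_pos (by omega)]
  obtain ⟨t, ht⟩ : ∃ t, q = t + 1 := ⟨q - 1, by omega⟩
  have ht' : q - 1 = t := by omega
  rw [ht']
  have h9 : ∀ z : ℕ, z * q = z * t + z := by intro z; rw [ht]; ring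
  rw [h9]
  omega

lemma card_adjF (x : R × ZMod q × ZMod q) (r : R) :
    ∑ a' : ZMod q, ∑ b' : ZMod q, (if adjF o q x (r, a', b') then 1 else 0) = q - 1 := by
  have h1 : ∀ a' : ZMod q, ∑ b' : ZMod q, (if adjF o q x (r, a', b') then 1 else 0) =
      if x.2.1 ≠ a' then 1 else 0 := by
    intro a'
    by_cases h : x.2.1 = a'
    · have : ∀ b' : ZMod q, ¬ adjF o q x (r, a', b') := fun b' hh => hh.1 h
      simp [this, h]
    · rw [if_pos h]
      have : ∀ b' : ZMod q, adjF o q x (r, a', b') ↔ incO o q x (r, a', b') :=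
        fun b' => ⟨fun hh => hh.2, fun hh => ⟨h, hh⟩⟩
      simp only [this]
      rw [← card_filter, card_incO_b]
  simp only [h1]
  rw [← card_filter, filter_ne, card_erase_of_mem (mem_univ _), card_univ, ZMod.card]

variable (q) in
/-- number of sparse neighbours in the reduced structure -/
noncomputable def fdeg (r : R) : ℕ := (univ.filter (fun y => S.F r y)).card

lemma sum_adjP (x : R × ZMod q × ZMod q) :
    ∑ y : R × ZMod q × ZMod q, (if adjP S o q x y then 1 else 0) =
      d * (x.2.1.val * (q - 1) + x.2.2.val + q) + fdeg S x.1 * (q - 1) := by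
  rw [Fintype.sum_prod_type]
  simp only [Fintype.sum_prod_type]
  have h : ∀ r : R, ∑ a' : ZMod q, ∑ b' : ZMod q, (if adjP S o q x (r, a', b') then 1 else 0) =
      (if S.D x.1 r then (x.2.1.val * (q - 1) + x.2.2.val + q) else 0) +
      (if S.F x.1 r then (q - 1) else 0) := by
    intro r
    by_cases hD : S.D x.1 r
    · have hF := S.disj _ _ hD
      have : ∀ a' b' : ZMod q, adjP S o q x (r, a', b') ↔ adjD o q x (r, a', b') := by
        intro a' b'
        unfold adjP
        simp [hD, hF]
      simp only [this, hD, hF, if_true, if_false, add_zero]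
      exact card_adjD x r
    · by_cases hF : S.F x.1 r
      · have : ∀ a' b' : ZMod q, adjP S o q x (r, a', b') ↔ adjF o q x (r, a', b') := by
          intro a' b'
          unfold adjP
          simp [hD, hF]
        simp only [this, hD, hF, if_true, if_false, zero_add]
        exact card_adjF x r
      · have : ∀ a' b' : ZMod q, ¬ adjP S o q x (r, a', b') := by
          intro a' b'
          unfold adjP
          simp [hD, hF]
        simp [this, hD, hF]
  simp only [h]
  rw [sum_add_distrib, ← sum_filter, ← sum_filter, sum_const, sum_const, S.reg, smul_eq_mul,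
    smul_eq_mul]
  rfl

lemma dg_inl (x : R × ZMod q × ZMod q) :
    dg S q m role (o := o) (.inl x) =
      d * (x.2.1.val * (q - 1) + x.2.2.val + q) + fdeg S x.1 * (q - 1) +
      (univ.filter (fun i => role i = some (x.1, special q x.2))).card := by
  unfold dg
  rw [card_filter, Fintype.sum_sum_type, Fintype.sum_sum_type]
  have e1 : ∑ y : R × ZMod q × ZMod q, (if adj S o q m role (.inl x) (.inl y) then 1 else 0) =
      ∑ y : R × ZMod q × ZMod q, (if adjP S o q x y then 1 else 0) :=
    sum_congr rfl fun y _ => if_congr Iff.rfl rfl rfl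
  have e2 : ∑ i : Fin m, (if adj S o q m role (.inl x) (.inr (.inl i)) then 1 else 0) =
      ∑ i : Fin m, (if role i = some (x.1, special q x.2) then 1 else 0) :=
    sum_congr rfl fun y _ => if_congr Iff.rfl rfl rfl
  have e3 : ∑ i : Fin m, (if adj S o q m role (.inl x) (.inr (.inr i)) then 1 else 0) = 0 :=
    sum_eq_zero fun i _ => if_neg (fun h => h)
  rw [e1, e2, e3, sum_adjP, card_filter]
  simp

lemma card_fin_ge (i : Fin m) : (univ.filter (fun t : Fin m => m ≤ i.val + t.val + 1)).card
    = i.val + 1 := by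
  rw [card_filter, Fin.sum_univ_eq_sum_range (fun t => if m ≤ i.val + t + 1 then 1 else 0) m,
    ← card_filter]
  have : (range m).filter (fun j => m ≤ i.val + j + 1) = Ico (m - (i.val + 1)) m := by
    ext j; simp only [mem_filter, mem_range, mem_Ico]; omega
  rw [this, Nat.card_Ico]
  have := i.2
  omega

lemma dg_inr_inr (t : Fin m) :
    dg S q m role (o := o) (.inr (.inr t)) = t.val + 1 := by
  unfold dg
  rw [card_filter, Fintype.sum_sum_type, Fintype.sum_sum_type]
  have e1 : ∑ y : R × ZMod q × ZMod q, (if adj S o q m role (.inr (.inr t)) (.inl y) then 1 else 0)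
      = 0 := sum_eq_zero fun i _ => if_neg (fun h => h)
  have e2 : ∑ i : Fin m, (if adj S o q m role (.inr (.inr t)) (.inr (.inl i)) then 1 else 0) =
      ∑ i : Fin m, (if m ≤ t.val + i.val + 1 then 1 else 0) := by
    refine sum_congr rfl fun y _ => if_congr ?_ rfl rfl
    change m ≤ y.val + t.val + 1 ↔ _
    omega
  have e3 : ∑ i : Fin m, (if adj S o q m role (.inr (.inr t)) (.inr (.inr i)) then 1 else 0) = 0 :=
    sum_eq_zero fun i _ => if_neg (fun h => h)
  rw [e1, e2, e3, ← card_filter, card_fin_ge]
  simp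

lemma card_special_true : (univ.filter (fun x : ZMod q × ZMod q => special q x = true)).card
    = q - 1 := by
  have : (univ.filter (fun x : ZMod q × ZMod q => special q x = true)) =
      ((univ : Finset (ZMod q)).erase 0).image (fun t => (t, 0)) := by
    ext ⟨u, v⟩
    simp only [special, mem_filter, mem_univ, true_and, decide_eq_true_eq, mem_image, mem_erase,
      Prod.mk.injEq]
    constructor
    · rintro ⟨h1, h2⟩; exact ⟨u, ⟨h2, trivial⟩, rfl, h1.symm⟩
    · rintro ⟨w, ⟨hw, _⟩, rfl, rfl⟩; exact ⟨rfl, hw⟩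
  rw [this, card_image_of_injective _ (fun a b h => congrArg Prod.fst h),
    card_erase_of_mem (mem_univ _), card_univ, ZMod.card]

lemma card_special_false : (univ.filter (fun x : ZMod q × ZMod q => special q x = false)).card
    = q * q - (q - 1) := by
  have h1 := card_filter_add_card_filter_not (s := (univ : Finset (ZMod q × ZMod q)))
    (fun x => special q x = true)
  rw [card_special_true] at h1
  simp only [Bool.not_eq_true] at h1
  have h2 : (univ : Finset (ZMod q × ZMod q)).card = q * q := by
    rw [card_univ, Fintype.card_prod, ZMod.card]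
  rw [h2] at h1
  omega

lemma dg_inr_inl (i : Fin m) :
    dg S q m role (o := o) (.inr (.inl i)) = i.val + 1 + (match role i with
      | none => 0
      | some (_, false) => q * q - (q - 1)
      | some (_, true) => q - 1) := by
  unfold dg
  rw [card_filter, Fintype.sum_sum_type, Fintype.sum_sum_type]
  have e1 : ∑ y : R × ZMod q × ZMod q, (if adj S o q m role (.inr (.inl i)) (.inl y) then 1 else 0)
      = ∑ x : R × ZMod q × ZMod q, (if role i = some (x.1, special q x.2) then 1 else 0) :=
    sum_congr rfl fun y _ => if_congr Iff.rfl rfl rfl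
  have e2 : ∑ t : Fin m, (if adj S o q m role (.inr (.inl i)) (.inr (.inl t)) then 1 else 0) = 0 :=
    sum_eq_zero fun i _ => if_neg (fun h => h)
  have e3 : ∑ t : Fin m, (if adj S o q m role (.inr (.inl i)) (.inr (.inr t)) then 1 else 0) =
      i.val + 1 := by
    rw [← card_fin_ge m i, card_filter]
    exact sum_congr rfl fun y _ => if_congr Iff.rfl rfl rfl
  rw [e1, e2, e3, zero_add, add_comm]
  congr 1
  rcases hr : role i with _ | ⟨r, b⟩
  · simp
  · have : ∀ x : R × ZMod q × ZMod q, (some (r, b) = some (x.1, special q x.2)) ↔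
        (r = x.1 ∧ special q x.2 = b) := by
      intro x
      rw [Option.some.injEq, Prod.mk.injEq, eq_comm (a := b)]
    simp only [this]
    rw [Fintype.sum_prod_type]
    have e : ∀ r' : R, ∑ y : ZMod q × ZMod q, (if r = r' ∧ special q y = b then 1 else 0) =
        if r = r' then (univ.filter (fun x : ZMod q × ZMod q => special q x = b)).card else 0 := by
      intro r'
      by_cases h : r = r'
      · simp only [h, true_and, if_true]
        rw [← card_filter]
      · simp [h]
    simp only [e]
    rw [sum_ite_eq]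
    simp only [mem_univ, if_true]
    cases b
    · simp only [card_special_false]
    · simp only [card_special_true]

end

end Pool.Agent.Lib.MP_e6c71b_co
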