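import Mathlib

/-!
Counting lemma for the parabola incidence relation `y₂ - x₂ = (y₁ - x₁)²` over a prime field.
-/

namespace Pool.Agent.Lib.MP_e6c71b_co

open Finset

variable {q : ℕ} [Fact q.Prime]

/-- The oriented incidence relation. -/
def inc (x y : ZMod q × ZMod q) : Prop := y.2 - x.2 = (y.1 - x.1) ^ 2

instance : DecidableRel (inc (q := q)) := fun x y => by unfold inc; infer_instance

lemma card_inc_left (x : ZMod q × ZMod q) :
    (univ.filter (fun y : ZMod q × ZMod q => inc x y)).card = q := by
  have : (univ.filter (fun y : ZMod q × ZMod q => inc x y)) =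
      (univ : Finset (ZMod q)).image (fun t => (t, x.2 + (t - x.1) ^ 2)) := by
    ext ⟨a, b⟩
    rw [mem_filter, mem_image]
    simp only [mem_univ, true_and, Prod.mk.injEq, exists_eq_left]
    unfold inc
    constructor
    · intro h; simp only at h ⊢; rw [← h]; ring
    · intro h; simp only at h ⊢; rw [← h]; ring
  rw [this, card_image_of_injective _ (fun a b h => congrArg Prod.fst h), card_univ, ZMod.card]

lemma card_inc_two (hq : q ≠ 2) (x x' : ZMod q × ZMod q) (hne : x ≠ x') :
    (univ.filter (fun y : ZMod q × ZMod q => inc x y ∧ inc x' y)).card ≤ 1 := by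
  rw [card_le_one]
  rintro ⟨a, b⟩ h ⟨a', b'⟩ h'
  obtain ⟨h1, h2⟩ := (mem_filter.1 h).2
  obtain ⟨h3, h4⟩ := (mem_filter.1 h').2
  unfold inc at h1 h2 h3 h4
  simp only at h1 h2 h3 h4
  have h2ne : (2 : ZMod q) ≠ 0 := by
    have hp := (Fact.out : q.Prime)
    have : ((2 : ℕ) : ZMod q) ≠ 0 := by
      rw [Ne, ZMod.natCast_eq_zero_iff]
      intro h
      exact hq ((Nat.prime_dvd_prime_iff_eq hp Nat.prime_two).1 h)
    exact_mod_cast this
  by_cases hx : x.1 = x'.1
  · exfalso
    apply hne
    refine Prod.ext hx ?_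
    rw [hx] at h1
    have : b - x.2 = b - x'.2 := by rw [h1, h2]
    exact sub_right_injective this
  · have key : 2 * (x.1 - x'.1) * (a - a') = 0 := by
      linear_combination h1 - h2 - h3 + h4
    have hne' : x.1 - x'.1 ≠ 0 := sub_ne_zero.2 hx
    have ha : a = a' := by
      have := (mul_eq_zero.1 key).resolve_left (mul_ne_zero h2ne hne')
      exact sub_eq_zero.1 this
    subst ha
    have hb : b = b' := by
      have : b - x.2 = b' - x.2 := by rw [h1, h3]
      exact sub_left_injective this
    rw [hb]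

/-- Two sets of points with no incidences between them satisfy `|X| |Y| ≤ q³`. -/
lemma inc_bound (hq : q ≠ 2) (X Y : Finset (ZMod q × ZMod q))
    (h : ∀ x ∈ X, ∀ y ∈ Y, ¬ inc x y) : X.card * Y.card ≤ q ^ 3 := by
  classical
  set d : ZMod q × ZMod q → ℕ := fun y => (X.filter (fun x => inc x y)).card with hd
  have hcardV : (univ : Finset (ZMod q × ZMod q)).card = q ^ 2 := by
    rw [card_univ, Fintype.card_prod, ZMod.card]; ring
  -- first moment
  have h1 : ∑ y, d y = X.card * q := by
    have : ∑ y, d y = ∑ x ∈ X, (univ.filter (fun y : ZMod q × ZMod q => inc x y)).card := by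
      simp only [hd, card_filter]
      rw [sum_comm]
    rw [this]
    simp only [card_inc_left, sum_const, smul_eq_mul]
  -- second moment
  have h2 : ∑ y, d y ^ 2 ≤ X.card * q + X.card ^ 2 := by
    have e1 : ∑ y, d y ^ 2 = ∑ x ∈ X, ∑ x' ∈ X,
        (univ.filter (fun y : ZMod q × ZMod q => inc x y ∧ inc x' y)).card := by
      have : ∀ y, d y ^ 2 = ∑ x ∈ X, ∑ x' ∈ X, (if inc x y ∧ inc x' y then 1 else 0) := by
        intro y
        simp only [hd, card_filter, sq, sum_mul_sum]
        refine sum_congr rfl fun x _ => sum_congr rfl fun x' _ => ?_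
        by_cases hx : inc x y <;> by_cases hx' : inc x' y <;> simp [hx, hx']
      simp only [this]
      rw [sum_comm]
      refine sum_congr rfl fun x _ => ?_
      rw [sum_comm]
      refine sum_congr rfl fun x' _ => ?_
      rw [card_filter]
    rw [e1]
    have e2 : ∀ x ∈ X, ∑ x' ∈ X,
        (univ.filter (fun y : ZMod q × ZMod q => inc x y ∧ inc x' y)).card ≤ q + X.card := by
      intro x hx
      rw [← add_sum_erase X _ hx]
      apply Nat.add_le_add
      · simp only [and_self]
        rw [card_inc_left]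
      · calc ∑ x' ∈ X.erase x, (univ.filter (fun y : ZMod q × ZMod q => inc x y ∧ inc x' y)).card
            ≤ ∑ x' ∈ X.erase x, 1 := by
              apply sum_le_sum
              intro x' hx'
              exact card_inc_two hq x x' (fun h => (mem_erase.1 hx').1 h.symm)
          _ ≤ X.card := by
              rw [sum_const, smul_eq_mul, mul_one]
              exact card_le_card (erase_subset _ _)
    calc _ ≤ ∑ x ∈ X, (q + X.card) := sum_le_sum e2
      _ = X.card * q + X.card ^ 2 := by rw [sum_const, smul_eq_mul]; ring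
  -- variance
  have h3 : (∑ y : ZMod q × ZMod q, ((q : ℤ) * d y - X.card) ^ 2) ≤ (q : ℤ) ^ 3 * X.card := by
    have e : (∑ y : ZMod q × ZMod q, ((q : ℤ) * d y - X.card) ^ 2) =
        (q : ℤ) ^ 2 * (∑ y : ZMod q × ZMod q, (d y : ℤ) ^ 2)
        - 2 * q * X.card * (∑ y : ZMod q × ZMod q, (d y : ℤ)) + q ^ 2 * X.card ^ 2 := by
      have : ∀ y : ZMod q × ZMod q, ((q : ℤ) * d y - X.card) ^ 2 =
          (q : ℤ) ^ 2 * (d y : ℤ) ^ 2 - 2 * q * X.card * (d y : ℤ) + X.card ^ 2 := by
        intro y; ring
      simp only [this]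
      rw [sum_add_distrib, sum_sub_distrib, ← mul_sum, ← mul_sum, sum_const, hcardV]
      simp
    rw [e]
    have h1' : (∑ y : ZMod q × ZMod q, (d y : ℤ)) = X.card * q := by exact_mod_cast h1
    have h2' : (∑ y : ZMod q × ZMod q, (d y : ℤ) ^ 2) ≤ X.card * q + X.card ^ 2 := by
      exact_mod_cast h2
    rw [h1']
    nlinarith [mul_le_mul_of_nonneg_left h2' (by positivity : (0 : ℤ) ≤ (q : ℤ) ^ 2)]
  have h4 : (Y.card : ℤ) * X.card ^ 2 ≤ (q : ℤ) ^ 3 * X.card := by
    calc (Y.card : ℤ) * X.card ^ 2 = ∑ y ∈ Y, ((q : ℤ) * d y - X.card) ^ 2 := by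
          rw [sum_congr rfl (g := fun _ => (X.card : ℤ) ^ 2)]
          · simp
          · intro y hy
            have : d y = 0 := by
              simp only [hd]
              rw [card_eq_zero, filter_eq_empty_iff]
              intro x hx
              exact h x hx y hy
            rw [this]; simp
      _ ≤ ∑ y : ZMod q × ZMod q, ((q : ℤ) * d y - X.card) ^ 2 := by
          apply sum_le_sum_of_subset_of_nonneg (subset_univ _)
          intro y _ _; positivity
      _ ≤ _ := h3
  rcases Nat.eq_zero_or_pos X.card with h0 | h0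
  · rw [h0]; simp
  · have h5 : (Y.card : ℤ) * X.card ≤ (q : ℤ) ^ 3 := by
      have hpos : (0 : ℤ) < X.card := by exact_mod_cast h0
      nlinarith
    have h6 : Y.card * X.card ≤ q ^ 3 := by exact_mod_cast h5
    rw [mul_comm]; exact h6

end Pool.Agent.Lib.MP_e6c71b_co
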