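import Pool.Agent.Lib.MP_e6c71b_co.Mult

/-!
Independence number of the big graph.
-/

namespace Pool.Agent.Lib.MP_e6c71b_co

open Finset Classical

variable {R : Type} [Fintype R] {k d a : ℕ} (S : Reduced R k d a) {o : R → ℕ}
variable {q : ℕ} [Fact q.Prime] {m : ℕ} {role : Fin m → Option (R × Bool)}

lemma exists_lam {s : ℕ} (X : Finset (ZMod q × ZMod q)) (hX : 2 * s + q ≤ X.card) :
    ∃ l : ℕ, s ≤ (X.filter (fun x => x.1.val ≤ l)).card ∧
      s ≤ (X.filter (fun x => l + 1 ≤ x.1.val)).card := by
  have hex : ∃ l : ℕ, s ≤ (X.filter (fun x => x.1.val ≤ l)).card := by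
    refine ⟨q, ?_⟩
    rw [filter_true_of_mem]
    · omega
    · intro x _; exact (ZMod.val_lt x.1).le
  refine ⟨Nat.find hex, Nat.find_spec hex, ?_⟩
  set l := Nat.find hex with hl
  have h1 : (X.filter (fun x => x.1.val < l)).card ≤ s := by
    rcases Nat.eq_zero_or_pos l with h0 | h0
    · rw [h0]; simp
    · have := Nat.find_min hex (m := l - 1) (by omega)
      have h2 : (X.filter (fun x => x.1.val < l)) = (X.filter (fun x => x.1.val ≤ l - 1)) := by
        apply filter_congr; intro x _; omega
      rw [h2]; omega
  have h2 : (X.filter (fun x => x.1.val = l)).card ≤ q := by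
    have : (X.filter (fun x => x.1.val = l)).card ≤ (univ : Finset (ZMod q)).card := by
      refine card_le_card_of_injOn (fun x => x.2) (fun _ _ => mem_univ _) ?_
      intro x hx y hy h
      have hx' := (mem_filter.1 hx).2
      have hy' := (mem_filter.1 hy).2
      exact Prod.ext (ZMod.val_injective q (hx'.trans hy'.symm)) h
    rw [card_univ, ZMod.card] at this
    exact this
  have h3 : X ⊆ (X.filter (fun x => x.1.val < l)) ∪ ((X.filter (fun x => x.1.val = l)) ∪
      (X.filter (fun x => l + 1 ≤ x.1.val))) := by
    intro x hx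
    simp only [mem_union, mem_filter, hx, true_and]
    omega
  have h4 := (card_le_card h3).trans ((card_union_le _ _).trans
    (Nat.add_le_add_left (card_union_le _ _) _))
  omega

lemma incO_free_bound (hq : q ≠ 2) {r r' : R} {s : ℕ} (hs : q ^ 3 < s * s)
    (X Y : Finset (ZMod q × ZMod q)) (hX : s ≤ X.card) (hY : s ≤ Y.card)
    (h : ∀ x ∈ X, ∀ y ∈ Y, ¬ incO o q (r, x) (r', y)) : False := by
  unfold incO at h
  by_cases hlt : o r < o r'
  · simp only [hlt, if_true] at h
    have := inc_bound hq X Y h
    have := Nat.mul_le_mul hX hY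
    omega
  · simp only [hlt, if_false] at h
    have := inc_bound hq Y X (fun y hy x hx => h x hx y hy)
    have := Nat.mul_le_mul hY hX
    omega

theorem indep_bound (hq : q ≠ 2) {s : ℕ} (hs : q ^ 3 < s * s)
    (I : Finset (Vtx R q m)) (hI : ∀ v ∈ I, ∀ w ∈ I, ¬ adj S o q m role v w) :
    I.card ≤ a * q ^ 2 + Fintype.card R * (2 * s + q) + 2 * m := by
  set X : R → Finset (ZMod q × ZMod q) := fun r => univ.filter (fun p => (Sum.inl (r, p)) ∈ I)
    with hX
  have hspos : 0 < s := by
    rcases Nat.eq_zero_or_pos s with h0 | h0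
    · rw [h0] at hs; simp at hs
    · exact h0
  -- the heavy parts form an independent set
  set J : Finset R := univ.filter (fun r => 2 * s + q ≤ (X r).card) with hJ
  have hJcard : J.card ≤ a := by
    apply S.indep
    intro r hr r' hr'
    have hr1 := (mem_filter.1 hr).2
    have hr2 := (mem_filter.1 hr').2
    obtain ⟨l, l1, l2⟩ := exists_lam (X r) hr1
    obtain ⟨l', l1', l2'⟩ := exists_lam (X r') hr2
    have hmem : ∀ (ρ : R) (x : ZMod q × ZMod q), x ∈ X ρ → (Sum.inl (ρ, x) : Vtx R q m) ∈ I :=
      fun ρ x hx => (mem_filter.1 hx).2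
    constructor
    · intro hD
      -- low-low
      have h1 : q ≤ l + l' + 1 := by
        by_contra hcon
        push Not at hcon
        refine incO_free_bound (o := o) (r := r) (r' := r') hq hs _ _ l1 l1' ?_
        intro x hx y hy hinc
        have hx' := mem_filter.1 hx
        have hy' := mem_filter.1 hy
        refine hI _ (hmem r x hx'.1) _ (hmem r' y hy'.1) ?_
        refine Or.inl ⟨hD, Or.inr (Or.inr ⟨?_, hinc⟩)⟩
        have := hx'.2
        have := hy'.2
        change x.1.val + y.1.val + 2 ≤ q
        omega
      obtain ⟨x, hx⟩ := card_pos.1 (lt_of_lt_of_le hspos l2)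
      obtain ⟨y, hy⟩ := card_pos.1 (lt_of_lt_of_le hspos l2')
      have hx' := mem_filter.1 hx
      have hy' := mem_filter.1 hy
      refine hI _ (hmem r x hx'.1) _ (hmem r' y hy'.1) ?_
      refine Or.inl ⟨hD, Or.inl ?_⟩
      have := hx'.2
      have := hy'.2
      change q ≤ x.1.val + y.1.val
      omega
    · intro hF
      rcases Nat.lt_or_ge l' l with hll | hll
      · refine incO_free_bound (o := o) (r := r) (r' := r') hq hs _ _ l2 l1' ?_
        intro x hx y hy hinc
        have hx' := mem_filter.1 hx
        have hy' := mem_filter.1 hy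
        refine hI _ (hmem r x hx'.1) _ (hmem r' y hy'.1) ?_
        refine Or.inr ⟨hF, ?_, hinc⟩
        intro heq
        have h3 := hx'.2
        have h4 := hy'.2
        have h5 : x.1 = y.1 := heq
        rw [h5] at h3
        omega
      · refine incO_free_bound (o := o) (r := r) (r' := r') hq hs _ _ l1 l2' ?_
        intro x hx y hy hinc
        have hx' := mem_filter.1 hx
        have hy' := mem_filter.1 hy
        refine hI _ (hmem r x hx'.1) _ (hmem r' y hy'.1) ?_
        refine Or.inr ⟨hF, ?_, hinc⟩
        intro heq
        have h3 := hx'.2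
        have h4 := hy'.2
        have h5 : x.1 = y.1 := heq
        rw [h5] at h3
        omega
  -- counting
  have hcount : I.card ≤ ∑ r, (X r).card + (m + m) := by
    have e : I.card = ∑ v : Vtx R q m, (if v ∈ I then 1 else 0) := by
      rw [← card_filter]; simp
    rw [e, Fintype.sum_sum_type]
    apply Nat.add_le_add
    · rw [Fintype.sum_prod_type]
      apply sum_le_sum
      intro r _
      rw [hX]
      simp only
      rw [card_filter]
    · calc ∑ v : Fin m ⊕ Fin m, (if (Sum.inr v : Vtx R q m) ∈ I then 1 else 0)
          ≤ ∑ v : Fin m ⊕ Fin m, 1 := by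
            apply sum_le_sum; intro v _; split_ifs <;> omega
        _ = m + m := by simp
  have hXle : ∀ r, (X r).card ≤ q ^ 2 := by
    intro r
    have := card_le_univ (X r)
    rw [Fintype.card_prod, ZMod.card] at this
    rw [sq]; exact this
  have hsum : ∑ r, (X r).card ≤ a * q ^ 2 + Fintype.card R * (2 * s + q) := by
    calc ∑ r, (X r).card ≤ ∑ r, ((if r ∈ J then q ^ 2 else 0) + (2 * s + q)) := by
          apply sum_le_sum
          intro r _
          by_cases hr : r ∈ J
          · rw [if_pos hr]
            have := hXle r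
            omega
          · rw [if_neg hr]
            have : ¬ (2 * s + q ≤ (X r).card) := by
              intro h
              exact hr (mem_filter.2 ⟨mem_univ _, h⟩)
            omega
      _ = J.card * q ^ 2 + Fintype.card R * (2 * s + q) := by
          rw [sum_add_distrib, sum_const, card_univ, smul_eq_mul, ← sum_filter, sum_const,
            smul_eq_mul, filter_mem_eq_inter, univ_inter]
      _ ≤ _ := by
          apply Nat.add_le_add_right
          exact Nat.mul_le_mul_right _ hJcard
  omega

end Pool.Agent.Lib.MP_e6c71b_co
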