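import Pool.Agent.Lib.MP_e6c71b_co.Types

/-!
The reduced structures with independence ratio close to `1/k`, for every `k ≥ 3`.
-/

namespace Pool.Agent.Lib.MP_e6c71b_co

open Finset Classical

/-- The structure for `k = 3`: blow-ups of circular cliques. -/
noncomputable def red3 (p j : ℕ) [NeZero p] (hj : 1 ≤ j) (hp : p + 1 = 3 * j) :
    Reduced (ZMod p × Fin 3) 3 (3 * j) (3 * j) where
  D x y := far j x.1 y.1
  F _ _ := False
  Dsymm _ _ h := far_symm h
  Fsymm _ _ h := h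
  Dirr x := not_far_self hj _
  Firr _ h := h
  disj _ _ _ h := h
  reg x := by
    refine (card_filter_fst (fun a : ZMod p => far j x.1 a)).trans ?_
    rw [Fintype.card_fin, card_far hj (by omega) x.1 _ _ (fun _ => Iff.rfl)]
    omega
  tri x y z h h2 h3 := by
    rcases h2 with h2 | h2
    · rcases h3 with h3 | h3
      · exact far_no_tri hj (by omega) h h2 h3
      · exact h3
    · exact h2
  card_le := by
    rw [Fintype.card_prod, ZMod.card, Fintype.card_fin]
    omega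
  indep S hS := by
    have h1 : (S.image Prod.fst).card ≤ j := by
      refine card_le_of_no_far hj (by omega) _ ?_
      intro x hx y hy
      obtain ⟨x', hx', rfl⟩ := mem_image.1 hx
      obtain ⟨y', hy', rfl⟩ := mem_image.1 hy
      exact (hS x' hx' y' hy').1
    have h2 : S ⊆ (S.image Prod.fst) ×ˢ (univ : Finset (Fin 3)) := by
      intro x hx
      rw [mem_product]
      exact ⟨mem_image_of_mem _ hx, mem_univ _⟩
    have h3 := card_le_card h2
    rw [card_product, card_univ, Fintype.card_fin] at h3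
    omega

/-- The structures for `k ≥ 5`. -/
noncomputable def redK (k r p s a : ℕ) [NeZero p] (hr : 1 ≤ r) (hs : 1 ≤ s) (hp : 2 * s ≤ p)
    (hcard : 2 * (r * p ^ r) ≤ k * (r * s * p ^ (r - 1) - 1))
    (ha : ∀ j ≤ r, ∀ X : ℕ, X * p ≤ p ^ r * s → X ≤ (p - s) ^ j * p ^ (r - j) →
      r * X + j * s * p ^ (r - 1) ≤ a) :
    Reduced (TT r p r (p ^ (r - 1))) k (r * s * p ^ (r - 1)) a where
  D := relAB s
  F := relSS s
  Dsymm := relAB_symm
  Fsymm := relSS_symm
  Dirr := relAB_irr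
  Firr := relSS_irr hr hs
  disj := relAB_disj
  reg x := by
    rcases x with x | x
    · exact degAB_inl (by omega) x
    · rw [degAB_inr (by omega) x]; ring
  tri := rel_tri hs
  card_le := by
    rw [Fintype.card_sum, Fintype.card_prod, Fintype.card_prod, Fintype.card_prod,
      Fintype.card_fun, ZMod.card, Fintype.card_fin, Fintype.card_fin]
    refine le_trans (le_of_eq ?_) hcard
    obtain ⟨r', rfl⟩ : ∃ r', r = r' + 1 := ⟨r - 1, by omega⟩
    rw [Nat.add_sub_cancel]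
    ring
  indep I hI := by
    obtain ⟨j, hj, X, h1, h2, h3⟩ := indepTT hs hp I hI
    exact h3.trans (ha j hj X h1 h2)

lemma card_TT (r p tA tB : ℕ) [NeZero p] :
    Fintype.card (TT r p tA tB) = p ^ r * tA + r * p * tB := by
  rw [Fintype.card_sum, Fintype.card_prod, Fintype.card_prod, Fintype.card_prod,
      Fintype.card_fun, ZMod.card, Fintype.card_fin, Fintype.card_fin, Fintype.card_fin]

lemma card_filter_or' {α : Type} [Fintype α] (P Q : α → Prop) (h : ∀ x, P x → ¬ Q x)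
    {i1 : DecidablePred (fun x => P x ∨ Q x)} :
    (univ.filter (fun x => P x ∨ Q x)).card = (univ.filter P).card + (univ.filter Q).card := by
  rw [← card_union_of_disjoint]
  · congr 1
    ext x
    simp only [mem_filter, mem_univ, true_and, mem_union]
  · rw [disjoint_filter]
    exact fun x _ hx => h x hx

/-- The structure for `k = 4`. -/
noncomputable def red4 (r a : ℕ) (hr : 3 ≤ r)
    (ha : ∀ j ≤ r, ∀ X : ℕ, X * 2 ≤ 2 ^ r * 1 → X ≤ (2 - 1) ^ j * 2 ^ (r - j) →
      (r - 1) * X + j * 1 * (2 ^ (r - 1) - 1) ≤ a) :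
    Reduced (TT r 2 (r - 1) (2 ^ (r - 1) - 1)) 4 (r * 2 ^ (r - 1) - 1) a where
  D x y := relAB 1 x y ∨ relSS 1 x y
  F _ _ := False
  Dsymm x y h := h.imp (relAB_symm x y) (relSS_symm x y)
  Fsymm _ _ h := h
  Dirr x h := h.elim (relAB_irr x) (relSS_irr (by omega) le_rfl x)
  Firr _ h := h
  disj _ _ _ h := h
  reg x := by
    obtain ⟨r', rfl⟩ : ∃ r', r = r' + 1 := ⟨r - 1, by omega⟩
    have h2 : 1 ≤ 2 ^ r' := Nat.one_le_two_pow
    rw [card_filter_or' _ _ (fun y h => relAB_disj x y h)]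
    rcases x with x | x
    · rw [degAB_inl (by norm_num) x, degSS_inl le_rfl (by norm_num) x]
      simp only [Nat.add_sub_cancel, mul_one]
      have h3 : (2 + 1 - 2) ^ (r' + 1) * r' = r' := by norm_num
      rw [h3]
      obtain ⟨c, hc⟩ : ∃ c, 2 ^ r' = c + 1 := ⟨2 ^ r' - 1, by omega⟩
      rw [hc, Nat.add_sub_cancel]
      have : (r' + 1) * (c + 1) = (r' + 1) * c + r' + 1 := by ring
      omega
    · rw [degAB_inr (by norm_num) x, degSS_inr le_rfl (by norm_num) x]
      simp only [Nat.add_sub_cancel, one_mul]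
      obtain ⟨c, hc⟩ : ∃ c, 2 ^ r' = c + 1 := ⟨2 ^ r' - 1, by omega⟩
      rw [hc, Nat.add_sub_cancel]
      have : (r' + 1) * (c + 1) = (c + 1) * r' + c + 1 := by ring
      omega
  tri x y z h h2 h3 := by
    rcases h2 with h2 | h2
    · rcases h3 with h3 | h3
      · exact rel_tri_full (by omega) le_rfl (by norm_num) x y z h h2 h3
      · exact h3
    · exact h2
  card_le := by
    rw [card_TT]
    obtain ⟨r', rfl⟩ : ∃ r', r = r' + 3 := ⟨r - 3, by omega⟩
    have e1 : r' + 3 - 1 = r' + 2 := by omega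
    rw [e1]
    have h2 : 1 ≤ 2 ^ r' := Nat.one_le_two_pow
    obtain ⟨c, hc⟩ : ∃ c, 2 ^ r' = c + 1 := ⟨2 ^ r' - 1, by omega⟩
    have e2 : 2 ^ (r' + 3) = 8 * (c + 1) := by rw [pow_succ, pow_succ, pow_succ, hc]; ring
    have e3 : 2 ^ (r' + 2) = 4 * (c + 1) := by rw [pow_succ, pow_succ, hc]; ring
    rw [e2, e3]
    have e4 : 4 * (c + 1) - 1 = 4 * c + 3 := by omega
    have e5 : (r' + 3) * (4 * (c + 1)) - 1 - 1 = 4 * r' * c + 4 * r' + 12 * c + 10 := by
      have : (r' + 3) * (4 * (c + 1)) = 4 * r' * c + 4 * r' + 12 * c + 12 := by ring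
      omega
    rw [e4, e5]
    nlinarith
  indep I hI := by
    obtain ⟨j, hj, X, h1, h2, h3⟩ := indepTT (s := 1) le_rfl (by norm_num) I
      (fun x hx y hy => by
        have := (hI x hx y hy).1
        exact ⟨fun h => this (Or.inl h), fun h => this (Or.inr h)⟩)
    exact h3.trans (ha j hj X h1 h2)

/-- The elementary optimisation. -/
lemma exists_r (β : ℝ) (h0 : 0 < β) (h1 : β ≤ 1) (ε : ℝ) (hε : 0 < ε) (N : ℕ) :
    ∃ r : ℕ, N ≤ r ∧ ∀ j : ℕ, j ≤ r → ∀ x : ℝ, x ≤ β → x ≤ (1 - β) ^ j →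
      r * x + j * β ≤ r * (β + ε) := by
  obtain ⟨J, hJ⟩ := exists_pow_lt_of_lt_one hε (by linarith : 1 - β < 1)
  obtain ⟨M, hM⟩ := exists_nat_gt ((J : ℝ) / ε)
  refine ⟨max N M, le_max_left _ _, ?_⟩
  intro j hj x hx1 hx2
  have hr : (M : ℝ) ≤ (max N M : ℕ) := by exact_mod_cast le_max_right N M
  have hr0 : (0 : ℝ) ≤ (max N M : ℕ) := Nat.cast_nonneg _
  have hj' : (j : ℝ) ≤ (max N M : ℕ) := by exact_mod_cast hj
  have hj0 : (0 : ℝ) ≤ j := Nat.cast_nonneg _
  rcases Nat.le_total j J with hjJ | hjJ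
  · have h2 : (j : ℝ) ≤ J := by exact_mod_cast hjJ
    have h3 : (J : ℝ) < M * ε := by rwa [div_lt_iff₀ hε] at hM
    have h4 : (j : ℝ) * β ≤ (max N M : ℕ) * ε := by
      have : (j : ℝ) * β ≤ j * 1 := mul_le_mul_of_nonneg_left h1 hj0
      have : (M : ℝ) * ε ≤ (max N M : ℕ) * ε := mul_le_mul_of_nonneg_right hr hε.le
      linarith
    have h5 : ((max N M : ℕ) : ℝ) * x ≤ (max N M : ℕ) * β := mul_le_mul_of_nonneg_left hx1 hr0
    linarith
  · have h2 : (1 - β) ^ j ≤ (1 - β) ^ J := pow_le_pow_of_le_one (by linarith) (by linarith) hjJ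
    have h5 : ((max N M : ℕ) : ℝ) * x ≤ (max N M : ℕ) * ε :=
      mul_le_mul_of_nonneg_left (by linarith) hr0
    have h6 : (j : ℝ) * β ≤ (max N M : ℕ) * β := mul_le_mul_of_nonneg_right hj' h0.le
    linarith

end Pool.Agent.Lib.MP_e6c71b_co
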