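import Pool.Agent.Lib.MP_e6c71b_co.Final

/-!
# Independence number of triangle-free graphs with few repeated degrees

For every fixed `k ≥ 2`, the minimum independence number `g_k(n)` of a triangle-free graph of
order `n` with minimum degree at least one in which every degree occurs at most `k` times satisfies
`liminf g_k(n) / n = 1 / k`.
-/

namespace Pool.Agent.Results.MP_e6c71b_co.LiminfInvK

open Filter
open scoped ENNReal

open Classical in
/-- `f(G)`: the maximum multiplicity of a value in the degree sequence of `G`. -/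
noncomputable def repetition {n : ℕ} (G : SimpleGraph (Fin n)) : ℕ :=
  ⨆ c : ℕ, {v : Fin n | G.degree v = c}.ncard

open Classical in
/-- `g_k(n)`: the minimum of the independence number over all triangle-free graphs of order `n`
with minimum degree at least `1` and `f(G) ≤ k` (`⊤` if there is no such graph). -/
noncomputable def g (k n : ℕ) : ℕ∞ :=
  sInf {b : ℕ∞ | ∃ G : SimpleGraph (Fin n),
    G.CliqueFree 3 ∧ 1 ≤ G.minDegree ∧ repetition G ≤ k ∧ b = G.indepNum}

open Classical in
lemma ncard_le_repetition {n : ℕ} (G : SimpleGraph (Fin n)) (c : ℕ) :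
    {v : Fin n | G.degree v = c}.ncard ≤ repetition G := by
  refine le_ciSup (f := fun c : ℕ => {v : Fin n | G.degree v = c}.ncard) ?_ c
  refine ⟨n, ?_⟩
  rintro _ ⟨c, rfl⟩
  refine (Set.ncard_le_card _).trans_eq (Nat.card_fin n)

open Classical in
/-- The lower bound `n ≤ k β(G)`. -/
lemma lower {n k : ℕ} (hn : 1 ≤ n) (G : SimpleGraph (Fin n)) (h3 : G.CliqueFree 3)
    (hmin : 1 ≤ G.minDegree) (hrep : repetition G ≤ k) : n ≤ k * G.indepNum := by
  have : Nonempty (Fin n) := ⟨⟨0, hn⟩⟩
  have h1 : n ≤ k * G.maxDegree := by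
    have h2 : (Finset.univ : Finset (Fin n)).card =
        ∑ c ∈ Finset.Icc 1 G.maxDegree, (Finset.univ.filter (fun v => G.degree v = c)).card := by
      refine Finset.card_eq_sum_card_fiberwise (fun v _ => ?_)
      rw [Finset.mem_coe, Finset.mem_Icc]
      exact ⟨hmin.trans (G.minDegree_le_degree v), G.degree_le_maxDegree v⟩
    rw [Finset.card_univ, Fintype.card_fin] at h2
    calc n = _ := h2
      _ ≤ ∑ c ∈ Finset.Icc 1 G.maxDegree, k := by
          refine Finset.sum_le_sum (fun c _ => le_trans ?_ ((ncard_le_repetition G c).trans hrep))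
          rw [Set.ncard_eq_toFinset_card']
          refine Finset.card_le_card (fun v hv => ?_)
          rw [Set.mem_toFinset]
          exact (Finset.mem_filter.1 hv).2
      _ = k * G.maxDegree := by
          rw [Finset.sum_const, Nat.card_Icc, smul_eq_mul, Nat.add_sub_cancel, mul_comm]
  refine h1.trans (Nat.mul_le_mul_left _ ?_)
  obtain ⟨v, hv⟩ := G.exists_maximal_degree_vertex
  rw [hv, ← G.card_neighborFinset_eq_degree]
  refine SimpleGraph.IsIndepSet.card_le_indepNum ?_
  rw [G.coe_neighborFinset]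
  exact G.isIndepSet_neighborSet_of_triangleFree h3 v

open Classical in
lemma upper {n k : ℕ} (hn : 1 ≤ n) {M : ℝ} (G : SimpleGraph (Fin n))
    (h : Lib.MP_e6c71b_co.Good G k M) :
    g k n ≤ G.indepNum ∧ (G.indepNum : ℝ) ≤ M := by
  obtain ⟨h1, h2, h3, h4⟩ := h
  have : Nonempty (Fin n) := ⟨⟨0, hn⟩⟩
  constructor
  · refine sInf_le ⟨G, h1, ?_, ?_, rfl⟩
    · refine G.le_minDegree_of_forall_le_degree 1 (fun v => ?_)
      rw [Nat.one_le_iff_ne_zero, ← Nat.pos_iff_ne_zero, G.degree_pos_iff_exists_adj]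
      exact h2 v
    · refine ciSup_le (fun c => le_trans ?_ (h3 c))
      rw [Set.ncard_eq_toFinset_card']
      refine Finset.card_le_card (fun v hv => ?_)
      rw [Set.mem_toFinset] at hv
      refine Finset.mem_filter.2 ⟨Finset.mem_univ _, ?_⟩
      have hv' : G.degree v = c := hv
      rw [← hv', ← G.card_neighborFinset_eq_degree, G.neighborFinset_eq_filter]
  · obtain ⟨s, hs⟩ := G.exists_isNIndepSet_indepNum
    have := h4 s (fun v hv w hw hvw => hs.isIndepSet hv hw hvw.ne hvw)
    rwa [hs.card_eq] at this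

/-- **Main theorem.** For every fixed `k ≥ 2`, `liminf g_k(n) / n = 1 / k`. -/
theorem result : ∀ k : ℕ, 2 ≤ k →
    liminf (fun n : ℕ => (g k n : ℝ≥0∞) / (n : ℝ≥0∞)) atTop = 1 / (k : ℝ≥0∞) := by
  intro k hk
  have hk0 : (0 : ℝ) < k := by
    have : 0 < k := by omega
    exact_mod_cast this
  apply le_antisymm
  · refine ENNReal.le_of_forall_pos_le_add (fun ε hε _ => ?_)
    refine liminf_le_of_frequently_le' (frequently_atTop.2 (fun N => ?_))
    obtain ⟨n, hn, G, hG⟩ := Lib.MP_e6c71b_co.exists_graph k hk (ε : ℝ)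
      (by exact_mod_cast hε) (max N 1)
    have hn1 : 1 ≤ n := (le_max_right _ _).trans hn
    refine ⟨n, (le_max_left _ _).trans hn, ?_⟩
    obtain ⟨h1, h2⟩ := upper hn1 G hG
    refine ENNReal.div_le_of_le_mul ?_
    have h3 : (g k n : ℝ≥0∞) ≤ (G.indepNum : ℝ≥0∞) := by
      have : ((g k n : ℕ∞) : ℝ≥0∞) ≤ ((G.indepNum : ℕ∞) : ℝ≥0∞) := ENat.toENNReal_le.2 h1
      simpa using this
    refine h3.trans ?_
    have h4 := ENNReal.ofReal_le_ofReal h2
    rw [ENNReal.ofReal_natCast, ENNReal.ofReal_mul (by positivity), ENNReal.ofReal_natCast,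
      ENNReal.ofReal_add (by positivity) (by positivity), ENNReal.ofReal_div_of_pos hk0,
      ENNReal.ofReal_one, ENNReal.ofReal_natCast, ENNReal.ofReal_coe_nnreal] at h4
    exact h4
  · refine le_liminf_of_le (h := ?_)
    filter_upwards [eventually_ge_atTop 1] with n hn
    rw [ENNReal.le_div_iff_mul_le (Or.inl (by simpa using (by omega : n ≠ 0)))
      (Or.inl (ENNReal.natCast_ne_top n))]
    by_cases hne : {b : ℕ∞ | ∃ G : SimpleGraph (Fin n),
        G.CliqueFree 3 ∧ 1 ≤ (@SimpleGraph.minDegree _ G _ (Classical.decRel _)) ∧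
          repetition G ≤ k ∧ b = G.indepNum}.Nonempty
    · obtain ⟨G, h1, h2, h3, h4⟩ := csInf_mem hne
      have h5 := lower hn G h1 h2 h3
      have h6 : (g k n : ℝ≥0∞) = (G.indepNum : ℝ≥0∞) := by
        have : g k n = (G.indepNum : ℕ∞) := h4
        rw [this]
        simp
      rw [h6, one_div, ← ENNReal.div_eq_inv_mul]
      refine ENNReal.div_le_of_le_mul' ?_
      exact_mod_cast h5
    · have h6 : g k n = ⊤ := by
        have : g k n = sInf ∅ := by
          rw [← Set.not_nonempty_iff_eq_empty.1 hne]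
          rfl
        rw [this, sInf_empty]
      rw [h6]
      simp

end Pool.Agent.Results.MP_e6c71b_co.LiminfInvK
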