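import Pool.Agent.Lib.MP_e6c71b_co.Graph

/-!
Every degree of the big graph is attained at most `k` times.
-/

namespace Pool.Agent.Lib.MP_e6c71b_co

open Finset Classical

variable {R : Type} [Fintype R] {k d a : ℕ} (S : Reduced R k d a) {o : R → ℕ}
variable {q : ℕ} [Fact q.Prime] {m : ℕ} {role : Fin m → Option (R × Bool)}

/-- The numerical hypotheses on the roles of the gadget vertices. -/
structure RoleOK (R : Type) [Fintype R] (k d q m u : ℕ) (role : Fin m → Option (R × Bool))
    (y τ : R → ℕ) : Prop where
  hd : 2 ≤ d
  hk : 2 ≤ k
  hu : q - 1 = d * u
  yinj : Function.Injective y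
  ylt : ∀ r, y r < u
  τpos : ∀ r, 1 ≤ τ r
  τlt : ∀ r, τ r < d
  τfib : ∀ c, (univ.filter (fun r => τ r = c)).card ≤ k
  role_false : ∀ r, (univ.filter (fun i => role i = some (r, false))).card = τ r
  role_true : ∀ r, (univ.filter (fun i => role i = some (r, true))).card = d * y r
  role_mod : ∀ i r, role i = some (r, false) → (i.val + 2) % d = 0
  hm : m + 1 < q

variable {u : ℕ} {y τ : R → ℕ}

lemma dg_normal (h : RoleOK R k d q m u role y τ) (x : R × ZMod q × ZMod q)
    (hx : special q x.2 = false) :
    dg S q m role (o := o) (.inl x) =
      d * (x.2.1.val * (q - 1) + x.2.2.val + q + fdeg S x.1 * u) + τ x.1 := by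
  rw [dg_inl, hx, h.role_false, h.hu]; ring

lemma dg_special (h : RoleOK R k d q m u role y τ) (x : R × ZMod q × ZMod q)
    (hx : special q x.2 = true) :
    dg S q m role (o := o) (.inl x) =
      d * (x.2.1.val * (q - 1) + q + fdeg S x.1 * u + y x.1) := by
  have h0 : x.2.2 = 0 := by
    unfold special at hx
    exact (of_decide_eq_true hx).1
  rw [dg_inl, hx, h.role_true, h.hu, h0, ZMod.val_zero]; ring

lemma dg_inl_ge (h : RoleOK R k d q m u role y τ) (x : R × ZMod q × ZMod q) :
    2 * q ≤ dg S q m role (o := o) (.inl x) := by
  have hd := h.hd
  rw [dg_inl]
  calc 2 * q ≤ d * q := Nat.mul_le_mul_right _ hd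
    _ ≤ d * (x.2.1.val * (q - 1) + x.2.2.val + q) := Nat.mul_le_mul_left _ (by omega)
    _ ≤ _ := by omega

lemma normal_inj {α β α' β' : ℕ} (hβ : β < q) (hβ' : β' < q)
    (h0 : β = 0 → α = 0) (h0' : β' = 0 → α' = 0)
    (h : α * (q - 1) + β = α' * (q - 1) + β') : α = α' ∧ β = β' := by
  have hq : 2 ≤ q := (Fact.out : q.Prime).two_le
  obtain ⟨t, ht⟩ : ∃ t, q = t + 1 := ⟨q - 1, by omega⟩
  have ht' : q - 1 = t := by omega
  rw [ht'] at h
  rcases lt_trichotomy α α' with hlt | heq | hgt
  · exfalso
    obtain ⟨e, rfl⟩ : ∃ e, α' = α + 1 + e := ⟨α' - α - 1, by omega⟩
    have : (α + 1 + e) * t = α * t + t + e * t := by ring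
    rw [this] at h
    have hb : β' = 0 := by
      by_contra hb
      have : 0 ≤ e * t := Nat.zero_le _
      omega
    have := h0' hb
    omega
  · subst heq
    exact ⟨rfl, by omega⟩
  · exfalso
    obtain ⟨e, rfl⟩ : ∃ e, α = α' + 1 + e := ⟨α - α' - 1, by omega⟩
    have : (α' + 1 + e) * t = α' * t + t + e * t := by ring
    rw [this] at h
    have hb : β = 0 := by
      by_contra hb
      have : 0 ≤ e * t := Nat.zero_le _
      omega
    have := h0 hb
    omega

lemma special_false_zero {x : ZMod q × ZMod q} (hx : special q x = false) :
    x.2.val = 0 → x.1.val = 0 := by
  intro h0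
  unfold special at hx
  have h1 := of_decide_eq_false hx
  rw [ZMod.val_eq_zero] at h0 ⊢
  by_contra h2
  exact h1 ⟨h0, h2⟩

/-- Multiplicity bound. -/
theorem mult_le (h : RoleOK R k d q m u role y τ) (v : ℕ) :
    (univ.filter (fun w => dg S q m role (o := o) w = v)).card ≤ k := by
  have hq2 : 2 ≤ q := (Fact.out : q.Prime).two_le
  have hd := h.hd
  have hm := h.hm
  have hk := h.hk
  have hu := h.hu
  have hdu : d * u + 1 = q := by omega
  have hupos : 0 < u := by
    rcases Nat.eq_zero_or_pos u with h0 | h0
    · rw [h0] at hdu; omega
    · exact h0
  -- value of false-role gadget vertices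
  have hYf : ∀ i r, role i = some (r, false) →
      dg S q m role (o := o) (.inr (.inl i)) = d * (u * q) + (i.val + 2) := by
    intro i r hr
    rw [dg_inr_inl, hr]
    have e : q * q - (q - 1) = d * (u * q) + 1 := by
      have : q * q = d * (u * q) + q := by
        calc q * q = (d * u + 1) * q := by rw [hdu]
          _ = _ := by ring
      rw [this]; omega
    simp only [e]; ring
  have hYfge : ∀ i r, role i = some (r, false) →
      2 * q ≤ dg S q m role (o := o) (.inr (.inl i)) := by
    intro i r hr
    rw [hYf i r hr]
    have : 2 * q ≤ d * (u * q) + 2 := by
      rcases Nat.lt_or_ge 1 u with h1 | h1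
      · have h3 : 2 * 2 ≤ d * u := Nat.mul_le_mul hd h1
        calc 2 * q ≤ (d * u) * q := Nat.mul_le_mul_right _ (by omega)
          _ = d * (u * q) := by ring
          _ ≤ _ := by omega
      · have hu1 : u = 1 := by omega
        rw [hu1, one_mul]
        calc 2 * q ≤ d * q := Nat.mul_le_mul_right _ hd
          _ ≤ _ := by omega
    omega
  have hYt : ∀ i r, role i = some (r, true) →
      dg S q m role (o := o) (.inr (.inl i)) = i.val + q := by
    intro i r hr
    rw [dg_inr_inl, hr]
    simp only
    omega
  have hYn : ∀ i, role i = none → dg S q m role (o := o) (.inr (.inl i)) = i.val + 1 := by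
    intro i hr
    rw [dg_inr_inl, hr]
    rfl
  have hZ : ∀ t, dg S q m role (o := o) (.inr (.inr t)) = t.val + 1 := dg_inr_inr S m role
  rcases Nat.lt_or_ge v q with hv | hv
  · -- small values
    have hcard : (univ.filter (fun w => dg S q m role (o := o) w = v)).card ≤
        (univ : Finset Bool).card := by
      refine card_le_card_of_injOn (fun w => match w with
        | .inl _ => true
        | .inr (.inl _) => true
        | .inr (.inr _) => false) (fun _ _ => mem_univ _) ?_
      rintro (x | i | t) hw (x' | i' | t') hw' hφ
      all_goals simp only [coe_filter, mem_univ, true_and] at hw hw'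
      all_goals try (exfalso; have h1 := dg_inl_ge (o := o) S h x; have h2 : dg S q m role (o := o) (.inl x) = v := hw; omega)
      all_goals try (exfalso; have h1 := dg_inl_ge (o := o) S h x'; have h2 : dg S q m role (o := o) (.inl x') = v := hw'; omega)
      all_goals try (simp at hφ; done)
      · have e1 : dg S q m role (o := o) (.inr (.inl i)) = v := hw
        have e2 : dg S q m role (o := o) (.inr (.inl i')) = v := hw'
        rcases hr : role i with _ | ⟨r, b⟩
        · rcases hr' : role i' with _ | ⟨r', b'⟩
          · rw [hYn i hr] at e1
            rw [hYn i' hr'] at e2
            have : i = i' := Fin.ext (by omega)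
            rw [this]
          · cases b'
            · have := hYfge i' r' hr'; omega
            · have := hYt i' r' hr'; omega
        · cases b
          · have := hYfge i r hr; omega
          · have := hYt i r hr; omega
      · have e1 : dg S q m role (o := o) (.inr (.inr t)) = v := hw
        have e2 : dg S q m role (o := o) (.inr (.inr t')) = v := hw'
        rw [hZ] at e1 e2
        have : t = t' := Fin.ext (by omega)
        rw [this]
    rw [card_univ, Fintype.card_bool] at hcard
    omega
  · rcases Nat.lt_or_ge v (2 * q) with hv2 | hv2
    · -- middle values
      have hcard : (univ.filter (fun w => dg S q m role (o := o) w = v)).card ≤ 1 := by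
        rw [card_le_one]
        have key : ∀ w ∈ univ.filter (fun w => dg S q m role (o := o) w = v),
            ∃ i : Fin m, w = .inr (.inl i) ∧ i.val + q = v := by
          rintro (x | i | t) hw
          · exfalso
            have h1 := dg_inl_ge (o := o) S h x
            have h2 : dg S q m role (o := o) (.inl x) = v := (mem_filter.1 hw).2
            omega
          · have h2 : dg S q m role (o := o) (.inr (.inl i)) = v := (mem_filter.1 hw).2
            have := i.2
            rcases hr : role i with _ | ⟨r, b⟩
            · have := hYn i hr; omega
            · cases b
              · have := hYfge i r hr; omega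
              · have := hYt i r hr
                exact ⟨i, rfl, by omega⟩
          · exfalso
            have h2 : dg S q m role (o := o) (.inr (.inr t)) = v := (mem_filter.1 hw).2
            rw [hZ] at h2
            have := t.2
            omega
        intro w hw w' hw'
        obtain ⟨i, rfl, hi⟩ := key w hw
        obtain ⟨i', rfl, hi'⟩ := key w' hw'
        have : i = i' := Fin.ext (by omega)
        rw [this]
      omega
    · -- large values
      by_cases hmod : v % d = 0
      · have hcard : (univ.filter (fun w => dg S q m role (o := o) w = v)).card ≤
            (univ : Finset Bool).card := by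
          refine card_le_card_of_injOn (fun w => match w with
            | .inl _ => true
            | .inr (.inl _) => false
            | .inr (.inr _) => false) (fun _ _ => mem_univ _) ?_
          have hP : ∀ x : R × ZMod q × ZMod q, dg S q m role (o := o) (.inl x) = v →
              special q x.2 = true := by
            intro x hx
            by_contra hs
            rw [Bool.not_eq_true] at hs
            rw [dg_normal S h x hs] at hx
            rw [← hx, Nat.mul_add_mod, Nat.mod_eq_of_lt (h.τlt _)] at hmod
            have := h.τpos x.1
            omega
          have hY : ∀ i : Fin m, dg S q m role (o := o) (.inr (.inl i)) = v →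
              d * (u * q) + (i.val + 2) = v := by
            intro i hi
            have := i.2
            rcases hr : role i with _ | ⟨r, b⟩
            · have := hYn i hr; omega
            · cases b
              · rw [hYf i r hr] at hi; exact hi
              · have := hYt i r hr; omega
          have hZ' : ∀ t : Fin m, dg S q m role (o := o) (.inr (.inr t)) ≠ v := by
            intro t ht
            rw [hZ] at ht
            have := t.2
            omega
          rintro (x | i | t) hw (x' | i' | t') hw' hφ
          all_goals simp only [coe_filter, mem_univ, true_and] at hw hw'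
          all_goals try (exact absurd hw (hZ' t))
          all_goals try (exact absurd hw' (hZ' t'))
          all_goals try (simp at hφ; done)
          · have e1 : dg S q m role (o := o) (.inl x) = v := hw
            have e2 : dg S q m role (o := o) (.inl x') = v := hw'
            have s1 := hP x e1
            have s2 := hP x' e2
            rw [dg_special S h x s1] at e1
            rw [dg_special S h x' s2] at e2
            have e3 : x.2.1.val * (q - 1) + q + fdeg S x.1 * u + y x.1 =
                x'.2.1.val * (q - 1) + q + fdeg S x'.1 * u + y x'.1 :=
              Nat.eq_of_mul_eq_mul_left (by omega) (e1.trans e2.symm)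
            rw [hu] at e3
            have e4 : (x.2.1.val * d + fdeg S x.1) * u + y x.1 =
                (x'.2.1.val * d + fdeg S x'.1) * u + y x'.1 := by
              have t1 : x.2.1.val * (d * u) + q + fdeg S x.1 * u + y x.1 =
                (x.2.1.val * d + fdeg S x.1) * u + y x.1 + q := by ring
              have t2 : x'.2.1.val * (d * u) + q + fdeg S x'.1 * u + y x'.1 =
                (x'.2.1.val * d + fdeg S x'.1) * u + y x'.1 + q := by ring
              omega
            have e5 : y x.1 = y x'.1 := by
              have := congrArg (· % u) e4
              simp only [Nat.mul_add_mod_self_right, Nat.mod_eq_of_lt (h.ylt _)] at this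
              exact this
            have e6 : x.1 = x'.1 := h.yinj e5
            rw [e6] at e4
            have e7 : x.2.1.val * d + fdeg S x'.1 = x'.2.1.val * d + fdeg S x'.1 :=
              Nat.eq_of_mul_eq_mul_right hupos (by omega)
            have e8 : x.2.1.val = x'.2.1.val :=
              Nat.eq_of_mul_eq_mul_right (by omega : 0 < d) (by omega)
            have e9 : x.2.1 = x'.2.1 := ZMod.val_injective q e8
            have z1 : x.2.2 = 0 := by
              unfold special at s1
              exact (of_decide_eq_true s1).1
            have z2 : x'.2.2 = 0 := by
              unfold special at s2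
              exact (of_decide_eq_true s2).1
            have : x = x' := Prod.ext e6 (Prod.ext e9 (by rw [z1, z2]))
            rw [this]
          · have e1 := hY i hw
            have e2 := hY i' hw'
            have : i = i' := Fin.ext (by omega)
            rw [this]
        rw [card_univ, Fintype.card_bool] at hcard
        omega
      · -- residue class of a main vertex
        have hP : ∀ x : R × ZMod q × ZMod q, dg S q m role (o := o) (.inl x) = v →
            special q x.2 = false := by
          intro x hx
          by_contra hs
          rw [Bool.not_eq_false] at hs
          rw [dg_special S h x hs] at hx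
          rw [← hx, Nat.mul_mod_right] at hmod
          exact hmod rfl
        have key : ∀ w ∈ univ.filter (fun w => dg S q m role (o := o) w = v),
            ∃ x, w = .inl x ∧ special q x.2 = false ∧
            d * (x.2.1.val * (q - 1) + x.2.2.val + q + fdeg S x.1 * u) + τ x.1 = v := by
          rintro (x | i | t) hw
          · have h2 : dg S q m role (o := o) (.inl x) = v := (mem_filter.1 hw).2
            have hs := hP x h2
            rw [dg_normal S h x hs] at h2
            exact ⟨x, rfl, hs, h2⟩
          · exfalso
            have h2 : dg S q m role (o := o) (.inr (.inl i)) = v := (mem_filter.1 hw).2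
            have := i.2
            rcases hr : role i with _ | ⟨r, b⟩
            · have := hYn i hr; omega
            · cases b
              · rw [hYf i r hr] at h2
                apply hmod
                rw [← h2, Nat.mul_add_mod]
                exact h.role_mod i r hr
              · have := hYt i r hr; omega
          · exfalso
            have h2 : dg S q m role (o := o) (.inr (.inr t)) = v := (mem_filter.1 hw).2
            rw [hZ] at h2
            have := t.2
            omega
        have hinj : (univ.filter (fun w => dg S q m role (o := o) w = v)).card ≤
            (univ.filter (fun r => τ r = v % d)).card := by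
          by_cases hR : Nonempty R
          · obtain ⟨r0⟩ := hR
            refine card_le_card_of_injOn (fun w => match w with
              | .inl x => x.1
              | .inr _ => r0) ?_ ?_
            · intro w hw
              obtain ⟨x, rfl, hs, hx⟩ := key w hw
              simp only [coe_filter, mem_univ, true_and]
              change τ x.1 = v % d
              rw [← hx, Nat.mul_add_mod, Nat.mod_eq_of_lt (h.τlt _)]
            · intro w hw w' hw' hφ
              obtain ⟨x, rfl, hs, hx⟩ := key w hw
              obtain ⟨x', rfl, hs', hx'⟩ := key w' hw'
              have hφ' : x.1 = x'.1 := hφ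
              rw [hφ'] at hx
              have e1 : x.2.1.val * (q - 1) + x.2.2.val + q + fdeg S x'.1 * u =
                  x'.2.1.val * (q - 1) + x'.2.2.val + q + fdeg S x'.1 * u :=
                Nat.eq_of_mul_eq_mul_left (by omega : 0 < d) (by omega)
              have e2 : x.2.1.val * (q - 1) + x.2.2.val =
                  x'.2.1.val * (q - 1) + x'.2.2.val := by omega
              obtain ⟨e3, e4⟩ := normal_inj (ZMod.val_lt _) (ZMod.val_lt _)
                (special_false_zero hs) (special_false_zero hs') e2
              have : x = x' := Prod.ext hφ' (Prod.ext (ZMod.val_injective q e3)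
                (ZMod.val_injective q e4))
              rw [this]
          · have hempty : univ.filter (fun w => dg S q m role (o := o) w = v) = ∅ := by
              rw [eq_empty_iff_forall_notMem]
              intro w hw
              obtain ⟨x, _⟩ := key w hw
              exact hR ⟨x.1⟩
            rw [hempty]; simp
        exact hinj.trans (h.τfib _)

end Pool.Agent.Lib.MP_e6c71b_co
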