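import Pool.Agent.Lib.MP_e6c71b_co.Circ
import Pool.Agent.Lib.MP_e6c71b_co.Graph

/-!
The bipartite-type reduced structures used for `k ≥ 4`.
-/

namespace Pool.Agent.Lib.MP_e6c71b_co

open Finset Classical

/-- Ground set of the bipartite-type structures. -/
abbrev TT (r p tA tB : ℕ) : Type := ((Fin r → ZMod p) × Fin tA) ⊕ ((Fin r × ZMod p) × Fin tB)

section

variable {r p tA tB : ℕ} (s : ℕ)

/-- cross relation -/
def relAB : TT r p tA tB → TT r p tA tB → Prop
  | .inl x, .inr y => (y.1.2 - x.1 y.1.1).val < s
  | .inr y, .inl x => (y.1.2 - x.1 y.1.1).val < s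
  | .inl _, .inl _ => False
  | .inr _, .inr _ => False

/-- same side relation -/
def relSS : TT r p tA tB → TT r p tA tB → Prop
  | .inl x, .inl y => ∀ i, far s (x.1 i) (y.1 i)
  | .inr x, .inr y => x.1.1 = y.1.1 ∧ far s x.1.2 y.1.2
  | .inl _, .inr _ => False
  | .inr _, .inl _ => False

variable {s}

lemma relAB_symm (x y : TT r p tA tB) (h : relAB s x y) : relAB s y x := by
  rcases x with x | x <;> rcases y with y | y
  · exact h
  · exact h
  · exact h
  · exact h

lemma relSS_symm (x y : TT r p tA tB) (h : relSS s x y) : relSS s y x := by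
  rcases x with x | x <;> rcases y with y | y
  · exact fun i => far_symm (h i)
  · exact h
  · exact h
  · exact ⟨h.1.symm, far_symm h.2⟩

lemma relAB_irr (x : TT r p tA tB) : ¬ relAB s x x := by
  rcases x with x | x <;> exact fun h => h

lemma relAB_disj (x y : TT r p tA tB) (h : relAB s x y) : ¬ relSS s x y := by
  rcases x with x | x <;> rcases y with y | y
  · exact fun _ => h
  · exact fun h => h
  · exact fun h => h
  · exact fun _ => h

lemma relSS_irr (hr : 1 ≤ r) (hs : 1 ≤ s) (x : TT r p tA tB) : ¬ relSS s x x := by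
  rcases x with x | x
  · intro h
    exact not_far_self hs _ (h ⟨0, hr⟩)
  · intro h
    exact not_far_self hs _ h.2

variable [NeZero p]

lemma rel_tri (hs : 1 ≤ s) (x y z : TT r p tA tB) (h : relAB s x y)
    (h2 : relAB s y z ∨ relSS s y z) : ¬ (relAB s x z ∨ relSS s x z) := by
  rcases x with x | x <;> rcases y with y | y <;> rcases z with z | z
  · exact fun _ => h
  · exact fun _ => h
  · rintro (h3 | h3)
    · exact h3
    · rcases h2 with h2 | h2
      · exact not_far_of_near' hs h h2 (h3 y.1.1)
      · exact h2
  · rintro (h3 | h3)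
    · rcases h2 with h2 | h2
      · exact h2
      · refine not_far_of_near hs h ?_ h2.2
        have h3' : (z.1.2 - x.1 z.1.1).val < s := h3
        rw [← h2.1] at h3'
        exact h3'
    · exact h3
  · rintro (h3 | h3)
    · rcases h2 with h2 | h2
      · exact h2
      · exact not_far_of_near' hs h h3 (h2 x.1.1)
    · exact h3
  · rintro (h3 | h3)
    · exact h3
    · rcases h2 with h2 | h2
      · have h2' : (z.1.2 - y.1 z.1.1).val < s := h2
        rw [← h3.1] at h2'
        exact not_far_of_near hs h h2' h3.2
      · exact h2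
  · exact fun _ => h
  · exact fun _ => h

/-- full triangle-freeness when `p < 3 s` -/
lemma rel_tri_full (hr : 1 ≤ r) (hs : 1 ≤ s) (hp : p < 3 * s) (x y z : TT r p tA tB)
    (h : relAB s x y ∨ relSS s x y)
    (h2 : relAB s y z ∨ relSS s y z) : ¬ (relAB s x z ∨ relSS s x z) := by
  intro h3
  rcases h with h | h
  · exact rel_tri hs x y z h h2 h3
  rcases h2 with h2 | h2
  · exact rel_tri hs y z x h2 (h3.imp (relAB_symm _ _) (relSS_symm _ _))
      (Or.inr (relSS_symm _ _ h))
  rcases h3 with h3 | h3
  · exact rel_tri hs x z y h3 (Or.inr (relSS_symm _ _ h2)) (Or.inr h)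
  rcases x with x | x <;> rcases y with y | y <;> rcases z with z | z
  · exact far_no_tri hs hp (h ⟨0, hr⟩) (h2 ⟨0, hr⟩) (h3 ⟨0, hr⟩)
  · exact h2
  · exact h
  · exact h
  · exact h
  · exact h
  · exact h2
  · exact far_no_tri hs hp h.2 h2.2 h3.2

/-- number of functions with one prescribed-near coordinate -/
lemma card_fun_near (hsp : s ≤ p) (i : Fin r) (b : ZMod p)
    (iD : DecidablePred (fun x : Fin r → ZMod p => (b - x i).val < s)) :
    (univ.filter (fun x : Fin r → ZMod p => (b - x i).val < s)).card = s * p ^ (r - 1) := by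
  have h1 : (univ.filter (fun x : Fin r → ZMod p => (b - x i).val < s)) =
      Fintype.piFinset (fun i' : Fin r => if i' = i then
        univ.filter (fun u : ZMod p => (b - u).val < s) else univ) := by
    ext x
    simp only [mem_filter, mem_univ, true_and, Fintype.mem_piFinset]
    constructor
    · intro h i'
      by_cases hi : i' = i
      · subst hi; rw [if_pos rfl, mem_filter]; exact ⟨mem_univ _, h⟩
      · rw [if_neg hi]; exact mem_univ _
    · intro h
      have := h i
      rw [if_pos rfl, mem_filter] at this
      exact this.2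
  rw [h1, Fintype.card_piFinset, ← Finset.mul_prod_erase univ _ (mem_univ i), if_pos rfl,
    card_near' hsp b _ _ (fun _ => Iff.rfl)]
  congr 1
  rw [Finset.prod_congr rfl (g := fun _ => p), Finset.prod_const, card_erase_of_mem (mem_univ _),
    card_univ, Fintype.card_fin]
  intro i' hi'
  rw [if_neg (ne_of_mem_erase hi'), card_univ, ZMod.card]

lemma card_fun_far (hs : 1 ≤ s) (hp : 2 * s ≤ p) (x : Fin r → ZMod p)
    (iD : DecidablePred (fun y : Fin r → ZMod p => ∀ i, far s (x i) (y i))) :
    (univ.filter (fun y : Fin r → ZMod p => ∀ i, far s (x i) (y i))).card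
      = (p + 1 - 2 * s) ^ r := by
  have h1 : (univ.filter (fun y : Fin r → ZMod p => ∀ i, far s (x i) (y i))) =
      Fintype.piFinset (fun i' : Fin r => univ.filter (fun u : ZMod p => far s (x i') u)) := by
    ext y
    simp only [mem_filter, mem_univ, true_and, Fintype.mem_piFinset]
  rw [h1, Fintype.card_piFinset, Finset.prod_congr rfl (g := fun _ => p + 1 - 2 * s),
    Finset.prod_const, card_univ, Fintype.card_fin]
  intro i _
  exact card_far hs hp _ _ _ (fun _ => Iff.rfl)

/-- splitting the cardinality of a filter over a sum type -/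
lemma card_filter_sum {α β : Type} [Fintype α] [Fintype β] (P : α ⊕ β → Prop)
    {i1 : DecidablePred P} :
    (univ.filter P).card = (univ.filter (fun a => P (.inl a))).card +
      (univ.filter (fun b => P (.inr b))).card := by
  have : (univ.filter P) = (univ.filter (fun a => P (.inl a))).disjSum
      (univ.filter (fun b => P (.inr b))) := by
    ext x
    rcases x with x | x
    · rw [Finset.inl_mem_disjSum]; simp
    · rw [Finset.inr_mem_disjSum]; simp
  rw [this, Finset.card_disjSum]

lemma card_filter_fst {α β : Type} [Fintype α] [Fintype β] (P : α → Prop)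
    {i1 : DecidablePred (fun a : α × β => P a.1)} :
    (univ.filter (fun a : α × β => P a.1)).card = (univ.filter P).card * Fintype.card β := by
  have : (univ.filter (fun a : α × β => P a.1)) = (univ.filter P) ×ˢ (univ : Finset β) := by
    ext a; simp
  rw [this, card_product, card_univ]

lemma card_filter_prod {α β : Type} [Fintype α] [Fintype β] (P : α → β → Prop)
    {i1 : DecidablePred (fun a : α × β => P a.1 a.2)} :
    (univ.filter (fun a : α × β => P a.1 a.2)).card = ∑ a, (univ.filter (P a)).card := by
  rw [card_filter, Fintype.sum_prod_type]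
  refine Finset.sum_congr rfl fun a _ => ?_
  rw [card_filter]
  refine Finset.sum_congr rfl fun b _ => ?_
  by_cases h : P a b
  · rw [if_pos h, if_pos h]
  · rw [if_neg h, if_neg h]

lemma degAB_inl (hsp : s ≤ p) (x : (Fin r → ZMod p) × Fin tA) :
    (univ.filter (fun y : TT r p tA tB => relAB s (.inl x) y)).card = r * s * tB := by
  rw [card_filter_sum]
  have h1 : (univ.filter (fun a : (Fin r → ZMod p) × Fin tA =>
      relAB s (.inl x) (.inl a : TT r p tA tB))).card = 0 := by
    rw [card_eq_zero, filter_eq_empty_iff]
    exact fun _ _ h => h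
  have h2 : (univ.filter (fun a : (Fin r × ZMod p) × Fin tB =>
      relAB s (.inl x) (.inr a : TT r p tA tB))).card = r * s * tB := by
    refine (card_filter_fst (fun a : Fin r × ZMod p => (a.2 - x.1 a.1).val < s)).trans ?_
    rw [Fintype.card_fin]
    congr 1
    refine (card_filter_prod (fun (i : Fin r) (b : ZMod p) => (b - x.1 i).val < s)).trans ?_
    rw [Finset.sum_congr rfl (g := fun _ => s), Finset.sum_const, card_univ, Fintype.card_fin,
      smul_eq_mul]
    intro i _
    exact card_near hsp _ _ _ (fun _ => Iff.rfl)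
  rw [h1, h2, zero_add]

lemma degAB_inr (hsp : s ≤ p) (x : (Fin r × ZMod p) × Fin tB) :
    (univ.filter (fun y : TT r p tA tB => relAB s (.inr x) y)).card = s * p ^ (r - 1) * tA := by
  rw [card_filter_sum]
  have h1 : (univ.filter (fun a : (Fin r × ZMod p) × Fin tB =>
      relAB s (.inr x) (.inr a : TT r p tA tB))).card = 0 := by
    rw [card_eq_zero, filter_eq_empty_iff]
    exact fun _ _ h => h
  have h2 : (univ.filter (fun a : (Fin r → ZMod p) × Fin tA =>
      relAB s (.inr x) (.inl a : TT r p tA tB))).card = s * p ^ (r - 1) * tA := by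
    refine (card_filter_fst (fun a : Fin r → ZMod p => (x.1.2 - a x.1.1).val < s)).trans ?_
    rw [Fintype.card_fin, card_fun_near hsp]
  rw [h1, h2, add_zero]

lemma degSS_inl (hs : 1 ≤ s) (hp : 2 * s ≤ p) (x : (Fin r → ZMod p) × Fin tA) :
    (univ.filter (fun y : TT r p tA tB => relSS s (.inl x) y)).card
      = (p + 1 - 2 * s) ^ r * tA := by
  rw [card_filter_sum]
  have h1 : (univ.filter (fun a : (Fin r × ZMod p) × Fin tB =>
      relSS s (.inl x) (.inr a : TT r p tA tB))).card = 0 := by
    rw [card_eq_zero, filter_eq_empty_iff]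
    exact fun _ _ h => h
  have h2 : (univ.filter (fun a : (Fin r → ZMod p) × Fin tA =>
      relSS s (.inl x) (.inl a : TT r p tA tB))).card = (p + 1 - 2 * s) ^ r * tA := by
    refine (card_filter_fst (fun a : Fin r → ZMod p => ∀ i, far s (x.1 i) (a i))).trans ?_
    rw [Fintype.card_fin, card_fun_far hs hp]
  rw [h1, h2, add_zero]

lemma degSS_inr (hs : 1 ≤ s) (hp : 2 * s ≤ p) (x : (Fin r × ZMod p) × Fin tB) :
    (univ.filter (fun y : TT r p tA tB => relSS s (.inr x) y)).card
      = (p + 1 - 2 * s) * tB := by
  rw [card_filter_sum]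
  have h1 : (univ.filter (fun a : (Fin r → ZMod p) × Fin tA =>
      relSS s (.inr x) (.inl a : TT r p tA tB))).card = 0 := by
    rw [card_eq_zero, filter_eq_empty_iff]
    exact fun _ _ h => h
  have h2 : (univ.filter (fun a : (Fin r × ZMod p) × Fin tB =>
      relSS s (.inr x) (.inr a : TT r p tA tB))).card = (p + 1 - 2 * s) * tB := by
    refine (card_filter_fst (fun a : Fin r × ZMod p => x.1.1 = a.1 ∧ far s x.1.2 a.2)).trans ?_
    rw [Fintype.card_fin]
    congr 1
    refine (card_filter_prod (fun (i : Fin r) (b : ZMod p) => x.1.1 = i ∧ far s x.1.2 b)).trans ?_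
    refine (Finset.sum_eq_single x.1.1 ?_ ?_).trans ?_
    · intro i _ hi
      rw [card_eq_zero]
      refine eq_empty_of_forall_notMem (fun b hb => ?_)
      have hb' := hb
      simp only [mem_filter] at hb'
      exact hi hb'.2.1.symm
    · intro h; exact absurd (mem_univ _) h
    · exact card_far hs hp x.1.2 _ _ (fun _ => ⟨fun h => h.2, fun h => ⟨rfl, h⟩⟩)
  rw [h1, h2, zero_add]

/-- The independence bound. -/
lemma indepTT (hs : 1 ≤ s) (hp : 2 * s ≤ p) (I : Finset (TT r p tA tB))
    (hI : ∀ x ∈ I, ∀ y ∈ I, ¬ relAB s x y ∧ ¬ relSS s x y) :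
    ∃ j ≤ r, ∃ X : ℕ, X * p ≤ p ^ r * s ∧ X ≤ (p - s) ^ j * p ^ (r - j) ∧
      I.card ≤ tA * X + j * s * tB := by
  -- projections
  set X : Finset (Fin r → ZMod p) := univ.filter (fun x => ∃ t, (.inl (x, t) : TT r p tA tB) ∈ I)
    with hX
  set T : Fin r → Finset (ZMod p) := fun i =>
    univ.filter (fun b => ∃ t, (.inr ((i, b), t) : TT r p tA tB) ∈ I) with hT
  set J : Finset (Fin r) := univ.filter (fun i => (T i).Nonempty) with hJ
  refine ⟨J.card, (card_le_univ J).trans_eq (Fintype.card_fin r), X.card, ?_, ?_, ?_⟩
  · -- diagonal translations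
    have hdiag : ∀ z : Fin r → ZMod p,
        (univ.filter (fun c : ZMod p => (fun i => z i + c) ∈ X)).card ≤ s := by
      intro z
      refine card_le_of_no_far hs hp _ ?_
      intro c hc c' hc' hfar
      obtain ⟨t, ht⟩ := (mem_filter.1 (mem_filter.1 hc).2).2
      obtain ⟨t', ht'⟩ := (mem_filter.1 (mem_filter.1 hc').2).2
      refine (hI _ ht _ ht').2 (fun i => ?_)
      change far s (z i + c) (z i + c')
      unfold far at hfar ⊢
      rw [add_sub_add_left_eq_sub, add_sub_add_left_eq_sub]
      exact hfar
    have hsum : ∑ z : Fin r → ZMod p, (univ.filter (fun c : ZMod p => (fun i => z i + c) ∈ X)).card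
        = p * X.card := by
      rw [Finset.sum_congr rfl (fun z _ => card_filter _ _), Finset.sum_comm]
      have : ∀ c : ZMod p, (∑ z : Fin r → ZMod p, if (fun i => z i + c) ∈ X then 1 else 0)
          = X.card := by
        intro c
        rw [← card_filter]
        refine card_bij (fun z _ => fun i => z i + c) (fun z hz => (mem_filter.1 hz).2) ?_ ?_
        · intro z _ z' _ h
          funext i
          exact add_right_cancel (congrFun h i)
        · intro x hx
          refine ⟨fun i => x i - c, ?_, ?_⟩
          · rw [mem_filter]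
            refine ⟨mem_univ _, ?_⟩
            simpa only [sub_add_cancel] using hx
          · funext i; exact sub_add_cancel _ _
      rw [Finset.sum_congr rfl (fun c _ => this c), Finset.sum_const, card_univ, ZMod.card,
        smul_eq_mul]
    calc X.card * p = p * X.card := mul_comm _ _
      _ = _ := hsum.symm
      _ ≤ ∑ z : Fin r → ZMod p, s := Finset.sum_le_sum (fun z _ => hdiag z)
      _ = p ^ r * s := by
          rw [Finset.sum_const, card_univ, smul_eq_mul]
          congr 1
          simp [ZMod.card]
  · have hb : ∀ i ∈ J, ∃ b, b ∈ T i := fun i hi => (mem_filter.1 hi).2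
    choose! b hb using hb
    have hsub : X ⊆ Fintype.piFinset (fun i : Fin r => if i ∈ J then
        univ.filter (fun u : ZMod p => ¬ (b i - u).val < s) else univ) := by
      intro x hx
      rw [Fintype.mem_piFinset]
      intro i
      by_cases hi : i ∈ J
      · rw [if_pos hi, mem_filter]
        refine ⟨mem_univ _, fun hlt => ?_⟩
        obtain ⟨t, ht⟩ := (mem_filter.1 hx).2
        obtain ⟨t', ht'⟩ := (mem_filter.1 (hb i hi)).2
        exact (hI _ ht _ ht').1 hlt
      · rw [if_neg hi]; exact mem_univ _
    refine (card_le_card hsub).trans_eq ?_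
    rw [Fintype.card_piFinset]
    have : ∀ i : Fin r, (if i ∈ J then univ.filter (fun u : ZMod p => ¬ (b i - u).val < s)
        else univ).card = if i ∈ J then p - s else p := by
      intro i
      split_ifs
      · exact card_not_near' _ _ _ (fun _ => Iff.rfl)
      · rw [card_univ, ZMod.card]
    rw [Finset.prod_congr rfl (fun i _ => this i), Finset.prod_ite, Finset.prod_const,
      Finset.prod_const]
    congr 2
    · congr 1; ext i; simp
    · have h1 : (univ.filter (fun i : Fin r => i ∉ J)) = Jᶜ := by ext i; simp
      rw [h1, card_compl, Fintype.card_fin]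
  · -- total count
    have h1 : I.card = (univ.filter (fun a : (Fin r → ZMod p) × Fin tA =>
        (.inl a : TT r p tA tB) ∈ I)).card + (univ.filter (fun a : (Fin r × ZMod p) × Fin tB =>
        (.inr a : TT r p tA tB) ∈ I)).card := by
      rw [show I.card = (univ.filter (fun x => x ∈ I)).card by congr 1; ext x; simp]
      exact card_filter_sum (fun x => x ∈ I)
    rw [h1]
    refine add_le_add ?_ ?_
    · have hsub : (univ.filter (fun a : (Fin r → ZMod p) × Fin tA =>
          (.inl a : TT r p tA tB) ∈ I)) ⊆ X ×ˢ (univ : Finset (Fin tA)) := by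
        intro a ha
        rw [mem_product]
        exact ⟨mem_filter.2 ⟨mem_univ _, a.2, (mem_filter.1 ha).2⟩, mem_univ _⟩
      refine (card_le_card hsub).trans_eq ?_
      rw [card_product, card_univ, Fintype.card_fin, mul_comm]
    · have hTs : ∀ i, (T i).card ≤ s := by
        intro i
        refine card_le_of_no_far hs hp _ ?_
        intro c hc c' hc' hfar
        obtain ⟨t, ht⟩ := (mem_filter.1 hc).2
        obtain ⟨t', ht'⟩ := (mem_filter.1 hc').2
        exact (hI _ ht _ ht').2 ⟨rfl, hfar⟩
      have hsub : (univ.filter (fun a : (Fin r × ZMod p) × Fin tB =>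
          (.inr a : TT r p tA tB) ∈ I)) ⊆
          (univ.filter (fun a : Fin r × ZMod p => a.2 ∈ T a.1)) ×ˢ (univ : Finset (Fin tB)) := by
        intro a ha
        rw [mem_product, mem_filter]
        exact ⟨⟨mem_univ _, mem_filter.2 ⟨mem_univ _, a.2, (mem_filter.1 ha).2⟩⟩, mem_univ _⟩
      refine (card_le_card hsub).trans ?_
      rw [card_product, card_univ, Fintype.card_fin]
      refine Nat.mul_le_mul_right _ ?_
      refine (card_filter_prod (fun (i : Fin r) (c : ZMod p) => c ∈ T i)).trans_le ?_
      have h2 : ∀ i : Fin r, ∀ iD : DecidablePred (fun c => c ∈ T i),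
          (@Finset.filter _ (fun c => c ∈ T i) iD univ).card ≤ if i ∈ J then s else 0 := by
        intro i iD
        have h3 : (univ.filter (fun c => c ∈ T i)) = T i := by ext c; simp
        rw [h3]
        split_ifs with hi
        · exact hTs i
        · have : ¬ (T i).Nonempty := fun h => hi (mem_filter.2 ⟨mem_univ _, h⟩)
          rw [not_nonempty_iff_eq_empty] at this
          rw [this, card_empty]
      refine (Finset.sum_le_sum (fun i _ => h2 i _)).trans_eq ?_
      rw [← Finset.sum_filter, Finset.sum_const, smul_eq_mul]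
      congr 1
      congr 1; ext i; simp

end

end Pool.Agent.Lib.MP_e6c71b_co
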